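import Pool.Agent.NPC.Defs

/-!
# Finite simple graphs given by lists
-/

namespace Pool.Agent.NPC.H634R2

/-- `V` lists the vertices and `E` the edges of a finite simple graph: vertices are listed once,
edges join two distinct vertices, no edge is listed twice. -/
def IsGraph (V : List ℕ) (E : List (ℕ × ℕ)) : Prop :=
  V.Nodup ∧ (∀ e ∈ E, e.1 ∈ V ∧ e.2 ∈ V ∧ e.1 ≠ e.2) ∧ (E.map (fun e => s(e.1, e.2))).Nodup

end Pool.Agent.NPC.H634R2
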