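import Pool.Agent.NPC.Sat
import Pool.Agent.H634R2.GraphDefs

/-!
# From 3SAT to cliques and dense subgraphs

Combinatorial correctness and polynomial-time computability of the textbook reduction.
-/

namespace Pool.Agent.NPC.H634R2

/-- A clause with three literals. -/
abbrev Cl3 : Type := Lit ℕ × Lit ℕ × Lit ℕ

/-- Truth of a literal. -/
def Holds (v : ℕ → Bool) (l : Lit ℕ) : Prop := v l.2 = l.1

/-- The graph has a set of `k` pairwise adjacent vertices. -/
def HasClique (V : List ℕ) (E : List (ℕ × ℕ)) (k : ℕ) : Prop :=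
  ∃ K : Finset ℕ, (∀ v ∈ K, v ∈ V) ∧ K.card = k ∧
    ∀ u ∈ K, ∀ v ∈ K, u ≠ v → (u, v) ∈ E ∨ (v, u) ∈ E

/-- The list of literals of a formula (three per clause), in order, with their positions. -/
def lits (φ : List Cl3) : List (Lit ℕ × ℕ) := (φ.flatMap (fun c => [c.1, c.2.1, c.2.2])).zipIdx

/-- Compatibility of literals at two positions: different clauses, and not complementary. -/
def compat (a b : Lit ℕ × ℕ) : Bool :=
  decide (a.2 / 3 < b.2 / 3) && !(decide (a.1.2 = b.1.2) && (a.1.1 ^^ b.1.1))

/-- The vertices of the graph of a formula. -/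
def gV (φ : List Cl3) : List ℕ := (lits φ).map Prod.snd

/-- The edges of the graph of a formula. -/
def gE (φ : List Cl3) : List (ℕ × ℕ) :=
  (lits φ).flatMap (fun a => ((lits φ).filter (fun b => compat a b)).map (fun b => (a.2, b.2)))

theorem length_flatLits (φ : List Cl3) :
    (φ.flatMap (fun c => [c.1, c.2.1, c.2.2])).length = 3 * φ.length := by
  induction φ with
  | nil => rfl
  | cons c φ ih => simp only [List.flatMap_cons, List.length_append, ih, List.length_cons,
      List.length_nil]; omega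

theorem gV_eq (φ : List Cl3) : gV φ = List.range (3 * φ.length) := by
  unfold gV lits
  rw [← length_flatLits φ]
  apply List.ext_getElem
  · simp
  · intro i h1 h2
    simp

theorem getElem?_flatLits (φ : List Cl3) : ∀ (j p : ℕ), p < 3 →
    (φ.flatMap (fun c => [c.1, c.2.1, c.2.2]))[3 * j + p]? =
      φ[j]?.bind (fun c => ([c.1, c.2.1, c.2.2] : List (Lit ℕ))[p]?) := by
  induction φ with
  | nil => intro j p hp; simp
  | cons c φ ih =>
    intro j p hp
    cases j with
    | zero =>
      simp only [List.flatMap_cons, mul_zero, zero_add, List.getElem?_cons_zero, Option.bind_some]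
      rw [List.getElem?_append_left (by simpa using hp)]
    | succ j =>
      rw [List.flatMap_cons, List.getElem?_append_right (by simp; omega)]
      have : 3 * (j + 1) + p - [c.1, c.2.1, c.2.2].length = 3 * j + p := by simp; omega
      rw [this, ih j p hp, List.getElem?_cons_succ]

theorem mem_lits {φ : List Cl3} {l : Lit ℕ} {i : ℕ} :
    (l, i) ∈ lits φ ↔ ∃ c, φ[i / 3]? = some c ∧ ([c.1, c.2.1, c.2.2] : List (Lit ℕ))[i % 3]? = some l := by
  unfold lits
  rw [List.mem_zipIdx_iff_getElem?]
  have h := getElem?_flatLits φ (i / 3) (i % 3) (Nat.mod_lt _ (by norm_num))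
  rw [Nat.div_add_mod] at h
  simp only
  rw [h]
  constructor
  · intro h
    obtain ⟨c, hc, h2⟩ := Option.bind_eq_some_iff.1 h
    exact ⟨c, hc, h2⟩
  · rintro ⟨c, hc, h2⟩
    exact Option.bind_eq_some_iff.2 ⟨c, hc, h2⟩

theorem lits_unique {φ : List Cl3} {l l' : Lit ℕ} {i : ℕ} (h : (l, i) ∈ lits φ)
    (h' : (l', i) ∈ lits φ) : l = l' := by
  unfold lits at h h'
  rw [List.mem_zipIdx_iff_getElem?] at h h'
  simp only at h h'
  rw [h] at h'
  exact Option.some.inj h'

theorem mem_gV {φ : List Cl3} {i : ℕ} : i ∈ gV φ ↔ i < 3 * φ.length := by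
  rw [gV_eq, List.mem_range]

theorem mem_gE {φ : List Cl3} {i j : ℕ} : (i, j) ∈ gE φ ↔
    ∃ l l' : Lit ℕ, (l, i) ∈ lits φ ∧ (l', j) ∈ lits φ ∧ compat (l, i) (l', j) = true := by
  unfold gE
  simp only [List.mem_flatMap, List.mem_map, List.mem_filter, Prod.mk.injEq]
  constructor
  · rintro ⟨⟨l, i'⟩, h1, ⟨l', j'⟩, ⟨h2, h3⟩, rfl, rfl⟩
    exact ⟨l, l', h1, h2, h3⟩
  · rintro ⟨l, l', h1, h2, h3⟩
    exact ⟨(l, i), h1, (l', j), ⟨h2, h3⟩, rfl, rfl⟩

theorem gE_lt {φ : List Cl3} {i j : ℕ} (h : (i, j) ∈ gE φ) : i < j := by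
  obtain ⟨l, l', _, _, h3⟩ := mem_gE.1 h
  unfold compat at h3
  simp only [Bool.and_eq_true, decide_eq_true_eq] at h3
  by_contra hc
  have := Nat.div_le_div_right (c := 3) (not_lt.1 hc)
  omega

theorem lits_snd_nodup (φ : List Cl3) : ((lits φ).map Prod.snd).Nodup := by
  change (gV φ).Nodup
  rw [gV_eq]
  exact List.nodup_range

theorem lits_nodup (φ : List Cl3) : (lits φ).Nodup := List.Nodup.of_map _ (lits_snd_nodup φ)

theorem gE_nodup (φ : List Cl3) : (gE φ).Nodup := by
  unfold gE
  rw [List.nodup_flatMap]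
  constructor
  · intro a ha
    refine List.Nodup.map_on ?_ ((lits_nodup φ).filter _)
    intro b hb b' hb' hbb
    simp only [Prod.mk.injEq, true_and] at hbb
    have h1 := List.mem_of_mem_filter hb
    have h2 := List.mem_of_mem_filter hb'
    obtain ⟨l, i⟩ := b
    obtain ⟨l', i'⟩ := b'
    simp only at hbb
    subst hbb
    rw [lits_unique h1 h2]
  · have h := lits_snd_nodup φ
    rw [List.nodup_iff_pairwise_ne, List.pairwise_map] at h
    refine h.imp ?_
    intro a b hab x hxa hxb
    simp only [List.mem_map] at hxa hxb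
    obtain ⟨c, _, rfl⟩ := hxa
    obtain ⟨d, _, hd⟩ := hxb
    simp only [Prod.mk.injEq] at hd
    exact hab hd.1.symm

/-- The graph of a formula is a graph. -/
theorem isGraph_g (φ : List Cl3) : IsGraph (gV φ) (gE φ) := by
  refine ⟨by rw [gV_eq]; exact List.nodup_range, ?_, ?_⟩
  · rintro ⟨i, j⟩ h
    have hlt := gE_lt h
    obtain ⟨l, l', h1, h2, _⟩ := mem_gE.1 h
    refine ⟨List.mem_map.2 ⟨_, h1, rfl⟩, List.mem_map.2 ⟨_, h2, rfl⟩, hlt.ne⟩
  · refine List.Nodup.map_on ?_ (gE_nodup φ)
    rintro ⟨i, j⟩ h ⟨i', j'⟩ h' heq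
    have h1 := gE_lt h
    have h2 := gE_lt h'
    simp only [Sym2.eq_iff] at heq
    rcases heq with ⟨rfl, rfl⟩ | ⟨rfl, rfl⟩
    · rfl
    · omega

/-- The formula is satisfiable iff its graph has a clique with one vertex per clause. -/
theorem hasClique_g (φ : List Cl3) : HasClique (gV φ) (gE φ) φ.length ↔ SAT3 φ := by
  constructor
  · rintro ⟨K, hKV, hcard, hK⟩
    -- the positions of `K` are in different clauses
    have hinj : ∀ i ∈ K, ∀ j ∈ K, i / 3 = j / 3 → i = j := by
      intro i hi j hj hij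
      by_contra hne
      rcases hK i hi j hj hne with h | h
      · obtain ⟨l, l', _, _, h3⟩ := mem_gE.1 h
        unfold compat at h3
        simp only [Bool.and_eq_true, decide_eq_true_eq] at h3
        omega
      · obtain ⟨l, l', _, _, h3⟩ := mem_gE.1 h
        unfold compat at h3
        simp only [Bool.and_eq_true, decide_eq_true_eq] at h3
        omega
    have himage : K.image (· / 3) = Finset.range φ.length := by
      apply Finset.eq_of_subset_of_card_le
      · intro x hx
        rw [Finset.mem_image] at hx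
        obtain ⟨i, hi, rfl⟩ := hx
        have := mem_gV.1 (hKV i hi)
        rw [Finset.mem_range]
        omega
      · rw [Finset.card_image_of_injOn (fun i hi j hj h => hinj i hi j hj h), Finset.card_range,
          hcard]
    -- the assignment
    classical
    refine ⟨fun x => decide (∃ i ∈ K, ((true, x), i) ∈ lits φ), ?_⟩
    intro c hc
    obtain ⟨j, hj, hjc⟩ := List.mem_iff_getElem.1 hc
    have hjm : j ∈ K.image (· / 3) := by rw [himage, Finset.mem_range]; exact hj
    rw [Finset.mem_image] at hjm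
    obtain ⟨i, hi, hij⟩ := hjm
    have hcj : φ[i / 3]? = some c := by
      rw [hij, List.getElem?_eq_getElem hj, hjc]
    have key : ∀ l : Lit ℕ, (l, i) ∈ lits φ →
        Holds (fun x => decide (∃ i ∈ K, ((true, x), i) ∈ lits φ)) l := by
      rintro ⟨b, x⟩ hl
      unfold Holds
      simp only
      cases b with
      | true => simp only [decide_eq_true_eq]; exact ⟨i, hi, hl⟩
      | false =>
        rw [decide_eq_false_iff_not]
        rintro ⟨i', hi', hl'⟩
        by_cases hne : i = i'
        · subst hne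
          have := lits_unique hl hl'
          simp at this
        · rcases hK i hi i' hi' hne with h | h
          · obtain ⟨l1, l2, h1, h2, h3⟩ := mem_gE.1 h
            rw [lits_unique h1 hl, lits_unique h2 hl'] at h3
            simp [compat] at h3
          · obtain ⟨l1, l2, h1, h2, h3⟩ := mem_gE.1 h
            rw [lits_unique h1 hl', lits_unique h2 hl] at h3
            simp [compat] at h3
    have h3 : i % 3 = 0 ∨ i % 3 = 1 ∨ i % 3 = 2 := by omega
    rcases h3 with h | h | h
    · left
      exact key _ (mem_lits.2 ⟨c, hcj, by rw [h]; rfl⟩)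
    · right; left
      exact key _ (mem_lits.2 ⟨c, hcj, by rw [h]; rfl⟩)
    · right; right
      exact key _ (mem_lits.2 ⟨c, hcj, by rw [h]; rfl⟩)
  · rintro ⟨v, hv⟩
    have hex : ∀ j : ℕ, j < φ.length → ∃ p < 3, ∃ l : Lit ℕ, (l, 3 * j + p) ∈ lits φ ∧
        Holds v l := by
      intro j hj
      have hc := hv φ[j] (List.getElem_mem hj)
      have hd : ∀ p < 3, (3 * j + p) / 3 = j := by intro p hp; omega
      have hm : ∀ p < 3, (3 * j + p) % 3 = p := by intro p hp; omega
      rcases hc with h | h | h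
      · refine ⟨0, by norm_num, _, mem_lits.2 ⟨φ[j], ?_, ?_⟩, h⟩
        · rw [hd 0 (by norm_num), List.getElem?_eq_getElem hj]
        · rw [hm 0 (by norm_num)]; rfl
      · refine ⟨1, by norm_num, _, mem_lits.2 ⟨φ[j], ?_, ?_⟩, h⟩
        · rw [hd 1 (by norm_num), List.getElem?_eq_getElem hj]
        · rw [hm 1 (by norm_num)]; rfl
      · refine ⟨2, by norm_num, _, mem_lits.2 ⟨φ[j], ?_, ?_⟩, h⟩
        · rw [hd 2 (by norm_num), List.getElem?_eq_getElem hj]
        · rw [hm 2 (by norm_num)]; rfl
    choose! p hp l hl hv' using hex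
    refine ⟨(Finset.range φ.length).image (fun j => 3 * j + p j), ?_, ?_, ?_⟩
    · intro i hi
      simp only [Finset.mem_image, Finset.mem_range] at hi
      obtain ⟨j, hj, rfl⟩ := hi
      have := hp j hj
      rw [mem_gV]
      omega
    · rw [Finset.card_image_of_injOn, Finset.card_range]
      intro j hj j' hj' h
      simp only [Finset.coe_range, Set.mem_Iio] at hj hj' h
      have := hp j hj
      have := hp j' hj'
      omega
    · have key : ∀ j j', j < φ.length → j' < φ.length → j < j' →
          (3 * j + p j, 3 * j' + p j') ∈ gE φ := by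
        intro j j' hj hj' hlt
        refine mem_gE.2 ⟨l j, l j', hl j hj, hl j' hj', ?_⟩
        have h1 := hp j hj
        have h2 := hp j' hj'
        unfold compat
        simp only [Bool.and_eq_true, decide_eq_true_eq, Bool.not_eq_true', Bool.and_eq_false_iff,
          decide_eq_false_iff_not]
        refine ⟨by omega, ?_⟩
        by_cases hx : (l j).2 = (l j').2
        · right
          have h3 := hv' j hj
          have h4 := hv' j' hj'
          unfold Holds at h3 h4
          rw [← h3, ← h4, hx]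
          simp
        · left; exact hx
      intro u hu w hw hne
      simp only [Finset.mem_image, Finset.mem_range] at hu hw
      obtain ⟨j, hj, rfl⟩ := hu
      obtain ⟨j', hj', rfl⟩ := hw
      rcases lt_trichotomy j j' with h | h | h
      · left; exact key j j' hj hj' h
      · subst h; exact absurd rfl hne
      · right; exact key j' j hj' hj h

/-! ### Counting edges -/

/-- The number of edges inside a set of vertices. -/
def inside (E : List (ℕ × ℕ)) (U : Finset ℕ) : ℕ :=
  E.countP (fun e => decide (e.1 ∈ U) && decide (e.2 ∈ U))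

theorem inside_eq_card {V : List ℕ} {E : List (ℕ × ℕ)} (h : IsGraph V E) (U : Finset ℕ) :
    inside E U = (((E.filter (fun e => decide (e.1 ∈ U) && decide (e.2 ∈ U))).map
      (fun e => s(e.1, e.2))).toFinset).card := by
  rw [List.toFinset_card_of_nodup]
  · unfold inside
    rw [List.countP_eq_length_filter, List.length_map]
  · exact List.Nodup.sublist (List.Sublist.map _ List.filter_sublist) h.2.2

theorem inside_subset {V : List ℕ} {E : List (ℕ × ℕ)} (h : IsGraph V E) (U : Finset ℕ) :
    (((E.filter (fun e => decide (e.1 ∈ U) && decide (e.2 ∈ U))).map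
      (fun e => s(e.1, e.2))).toFinset) ⊆ U.offDiag.image Sym2.mk.uncurry := by
  intro x hx
  simp only [List.mem_toFinset, List.mem_map, List.mem_filter, Bool.and_eq_true,
    decide_eq_true_eq] at hx
  obtain ⟨e, ⟨he, h1, h2⟩, rfl⟩ := hx
  rw [Finset.mem_image]
  exact ⟨(e.1, e.2), Finset.mem_offDiag.2 ⟨h1, h2, (h.2.1 e he).2.2⟩, rfl⟩

theorem inside_le {V : List ℕ} {E : List (ℕ × ℕ)} (h : IsGraph V E) (U : Finset ℕ) :
    inside E U ≤ U.card.choose 2 := by
  rw [inside_eq_card h, ← Sym2.card_image_offDiag U]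
  exact Finset.card_le_card (inside_subset h U)

/-- A graph has a clique of size `k ≥ 2` iff some set of at most `k` vertices contains at least
`k choose 2` edges. -/
theorem hasClique_iff {V : List ℕ} {E : List (ℕ × ℕ)} (h : IsGraph V E) {k : ℕ} (hk : 2 ≤ k) :
    HasClique V E k ↔ ∃ U : Finset ℕ, (∀ v ∈ U, v ∈ V) ∧ U.card ≤ k ∧
      k.choose 2 ≤ inside E U := by
  constructor
  · rintro ⟨K, hKV, hcard, hK⟩
    refine ⟨K, hKV, hcard.le, ?_⟩
    rw [← hcard, ← Sym2.card_image_offDiag K, inside_eq_card h]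
    apply Finset.card_le_card
    intro x hx
    rw [Finset.mem_image] at hx
    obtain ⟨⟨u, v⟩, huv, rfl⟩ := hx
    rw [Finset.mem_offDiag] at huv
    obtain ⟨hu, hv, hne⟩ := huv
    simp only at hu hv hne
    simp only [List.mem_toFinset, List.mem_map, List.mem_filter, Bool.and_eq_true,
      decide_eq_true_eq]
    rcases hK u hu v hv hne with h | h
    · exact ⟨(u, v), ⟨h, hu, hv⟩, rfl⟩
    · exact ⟨(v, u), ⟨h, hv, hu⟩, Sym2.eq_swap⟩
  · rintro ⟨U, hUV, hcard, hU⟩
    have h1 := inside_le h U
    have hck : U.card = k := by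
      by_contra hne
      have hlt : U.card < k := lt_of_le_of_ne hcard hne
      have h2 : U.card.choose 2 < k.choose 2 := by
        have h3 : U.card.choose 2 ≤ (k - 1).choose 2 := Nat.choose_le_choose 2 (by omega)
        have h4 : k.choose 2 = (k - 1).choose 1 + (k - 1).choose 2 := by
          conv_lhs => rw [show k = (k - 1) + 1 by omega, Nat.choose_succ_succ']
        have h5 : (k - 1).choose 1 = k - 1 := Nat.choose_one_right _
        omega
      omega
    refine ⟨U, hUV, hck, ?_⟩
    have h2 : (((E.filter (fun e => decide (e.1 ∈ U) && decide (e.2 ∈ U))).map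
      (fun e => s(e.1, e.2))).toFinset) = U.offDiag.image Sym2.mk.uncurry := by
      apply Finset.eq_of_subset_of_card_le (inside_subset h U)
      rw [Sym2.card_image_offDiag, ← inside_eq_card h, hck]
      exact hU
    intro u hu v hv hne
    have h3 : s(u, v) ∈ U.offDiag.image Sym2.mk.uncurry :=
      Finset.mem_image.2 ⟨(u, v), Finset.mem_offDiag.2 ⟨hu, hv, hne⟩, rfl⟩
    rw [← h2] at h3
    simp only [List.mem_toFinset, List.mem_map, List.mem_filter, Bool.and_eq_true,
      decide_eq_true_eq] at h3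
    obtain ⟨⟨a, b⟩, ⟨he, _, _⟩, heq⟩ := h3
    simp only [Sym2.eq_iff] at heq
    rcases heq with ⟨rfl, rfl⟩ | ⟨rfl, rfl⟩
    · left; exact he
    · right; exact he

/-! ### Polynomial time -/

theorem lits_poly : Poly lits := by
  have h : Poly (fun p : List Cl3 × Cl3 => ([p.2.1, p.2.2.1, p.2.2.2] : List (Lit ℕ))) :=
    Poly.cons (Poly.fst (Poly.snd Poly.id)) (Poly.cons (Poly.fst (Poly.snd (Poly.snd Poly.id)))
      (Poly.cons (Poly.snd (Poly.snd (Poly.snd Poly.id))) (Poly.const [])))
  have h2 : Poly (fun φ : List Cl3 => φ.flatMap (fun c => ([c.1, c.2.1, c.2.2] : List (Lit ℕ)))) :=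
    Poly.flatMap (F := fun (_ : List Cl3) (c : Cl3) => ([c.1, c.2.1, c.2.2] : List (Lit ℕ))) Poly.id h
  exact Poly.zipIdx h2

theorem compat_poly {α : Type} [TEnc α] {f g : α → Lit ℕ × ℕ} (hf : Poly f) (hg : Poly g) :
    Poly (fun a => compat (f a) (g a)) :=
  Poly.and (Poly.decide_lt (Poly.div (Poly.snd hf) (Poly.const 3))
    (Poly.div (Poly.snd hg) (Poly.const 3)))
    (Poly.not (Poly.and (Poly.decide_eq (Poly.snd (Poly.fst hf)) (Poly.snd (Poly.fst hg)))
      (Poly.xor (Poly.fst (Poly.fst hf)) (Poly.fst (Poly.fst hg)))))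

theorem gV_poly : Poly gV :=
  Poly.map (F := fun _ (a : Lit ℕ × ℕ) => a.2) lits_poly (Poly.snd (Poly.snd Poly.id))

theorem gE_poly : Poly gE := by
  refine Poly.flatMap (F := fun (φ : List Cl3) (a : Lit ℕ × ℕ) =>
    ((lits φ).filter (fun b => compat a b)).map (fun b => (a.2, b.2))) lits_poly ?_
  refine Poly.map (F := fun (p : List Cl3 × (Lit ℕ × ℕ)) (b : Lit ℕ × ℕ) => (p.2.2, b.2)) ?_ ?_
  · exact Poly.filter (p := fun (p : List Cl3 × (Lit ℕ × ℕ)) (b : Lit ℕ × ℕ) => compat p.2 b)
      (lits_poly.comp (Poly.fst Poly.id)) (compat_poly (Poly.snd (Poly.fst Poly.id))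
        (Poly.snd Poly.id))
  · exact Poly.pair (Poly.snd (Poly.snd (Poly.fst Poly.id))) (Poly.snd (Poly.snd Poly.id))

/-- Two clauses that are always satisfied. -/
def pad : List Cl3 := [((true, 0), (false, 0), (true, 0)), ((true, 0), (false, 0), (true, 0))]

theorem sat3_pad (φ : List Cl3) : SAT3 (pad ++ φ) ↔ SAT3 φ := by
  constructor
  · rintro ⟨v, hv⟩
    exact ⟨v, fun c hc => hv c (List.mem_append_right _ hc)⟩
  · rintro ⟨v, hv⟩
    refine ⟨v, fun c hc => ?_⟩
    rcases List.mem_append.1 hc with h | h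
    · have : c = ((true, 0), (false, 0), (true, 0)) := by
        simp only [pad, List.mem_cons, List.not_mem_nil, or_false, or_self] at h
        exact h
      subst this
      simp only
      cases v 0 <;> simp
    · exact hv c h

/-- The clique problem on finite simple graphs, given by lists of vertices and edges. -/
def CLIQUE (I : (List ℕ × List (ℕ × ℕ)) × ℕ) : Prop :=
  IsGraph I.1.1 I.1.2 ∧ HasClique I.1.1 I.1.2 I.2

/-- The clique problem is hard, already for instances given by correct descriptions of graphs and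
with `k ≥ 2`. -/
theorem hardPr_CLIQUE : HardPr (fun I : (List ℕ × List (ℕ × ℕ)) × ℕ => IsGraph I.1.1 I.1.2 ∧ 2 ≤ I.2)
    CLIQUE := by
  have hpad : Poly (fun φ : List Cl3 => pad ++ φ) := Poly.append (Poly.const pad) Poly.id
  refine (hardI_SAT3.toHardPr).trans (f := fun φ => ((gV (pad ++ φ), gE (pad ++ φ)),
    (pad ++ φ).length)) ?_ ?_ ?_
  · exact Poly.pair (Poly.pair (gV_poly.comp hpad) (gE_poly.comp hpad)) (Poly.length hpad)
  · intro φ _
    refine ⟨isGraph_g _, ?_⟩
    simp [pad]
  · intro φ _
    rw [← sat3_pad φ]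
    unfold CLIQUE
    simp only
    rw [hasClique_g]
    exact ⟨fun h => ⟨isGraph_g _, h⟩, fun h => h.2⟩

theorem hardI_CLIQUE : HardI CLIQUE := hardPr_CLIQUE.toHardI

/-- The clique problem is `NP`-hard. -/
theorem npHard_CLIQUE : NPHardP CLIQUE := hardI_CLIQUE.toNPHardP

end Pool.Agent.NPC.H634R2
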