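import Pool.Agent.NPC.CookLevin3
import Pool.Agent.NPC.Dec
import Pool.Agent.H671R2.PolyAuto

/-!
# Polynomial-time predicates as formulas with designated variables

For a polynomial-time predicate `Q (x, u)` on pairs of bit strings: a polynomial-time computable
formula in conjunctive normal form with designated variables `X 0, ..., X (m - 1)`; an assignment
of the designated variables can be extended to a satisfying assignment iff `Q (x, u)` holds for the
string `u` of its values.
-/

namespace Pool.Agent.NPC.Circ

open CL Turing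

section

variable {Q K A : Type} [DecidableEq K] (D : Tab Q K A)

/-- initial clauses without the clauses for the designated cells -/
def headC (pre : List Bool) (m : ℕ) : List (List (Bool × Var Q K A)) :=
  [(true, Var.st 0 D.q₀)] ::
    (D.ks.map (fun k => [(true, Var.hp 0 k (if k = D.k₀ then 0 + (pre.length + m) else 0))]) ++
      pre.reverse.zipIdx.map (fun p => [(true, Var.ce 0 D.k₀ (m + p.2) (some (D.sym p.1)))]))

/-- transition and final clauses -/
def restC (L N : ℕ) : List (List (Bool × Var Q K A)) :=
  (List.range N).flatMap (fun t =>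
    (List.range (0 + L + N + 1)).flatMap (fun h => tClauses D t h)) ++
    fiClauses D N (0 + L + N + 1)

theorem holds_cons {V : Type} {τ : V → Bool} {c : List (Bool × V)} {φ : List (List (Bool × V))} :
    Holds τ (c :: φ) ↔ (∃ l ∈ c, τ l.2 = l.1) ∧ Holds τ φ := by
  simp only [Holds, List.mem_cons, forall_eq_or_imp]

theorem holds_zip {τ : Var Q K A → Bool} (l : List Bool) (o : ℕ) :
    Holds τ (l.zipIdx.map (fun p => [(true, Var.ce 0 D.k₀ (o + p.2) (some (D.sym p.1)))])) ↔
      ∀ j b, l[j]? = some b → τ (Var.ce 0 D.k₀ (o + j) (some (D.sym b))) = true := by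
  constructor
  · intro h j b hj
    obtain ⟨l', hl, hl'⟩ := h _ (List.mem_map.2 ⟨(b, j), List.mem_zipIdx_iff_getElem?.2 hj, rfl⟩)
    rw [List.mem_singleton] at hl
    subst hl
    exact hl'
  · intro h c hc
    obtain ⟨⟨b, j⟩, hj, rfl⟩ := List.mem_map.1 hc
    exact ⟨_, List.mem_singleton_self _, h j b (List.mem_zipIdx_iff_getElem?.1 hj)⟩

theorem holds_formula {τ : Var Q K A → Bool} (pre ul : List Bool) (N : ℕ) :
    Holds τ (formula D 0 (pre ++ ul.reverse) N) ↔
      Holds τ (headC D pre ul.length) ∧
      (∀ j b, ul[j]? = some b → τ (Var.ce 0 D.k₀ j (some (D.sym b))) = true) ∧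
      Holds τ (restC D (pre.length + ul.length) N) := by
  have hlen : (pre ++ ul.reverse).length = pre.length + ul.length := by simp
  rw [formula, inClauses, hlen, Holds.append_iff]
  rw [← restC]
  simp only [List.range_zero, List.map_nil, Nat.zero_sub, List.append_nil]
  rw [holds_cons, Holds.append_iff, holds_zip]
  rw [headC, holds_cons, Holds.append_iff, holds_zip]
  have hrev : (pre ++ ul.reverse).reverse = ul ++ pre.reverse := by simp
  rw [hrev]
  have key : (∀ j b, (ul ++ pre.reverse)[j]? = some b →
      τ (Var.ce 0 D.k₀ (0 + j) (some (D.sym b))) = true) ↔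
      (∀ j b, ul[j]? = some b → τ (Var.ce 0 D.k₀ j (some (D.sym b))) = true) ∧
      (∀ j b, pre.reverse[j]? = some b →
        τ (Var.ce 0 D.k₀ (ul.length + j) (some (D.sym b))) = true) := by
    constructor
    · intro h
      refine ⟨fun j b hj => ?_, fun j b hj => ?_⟩
      · have h1 := h j b (by
          rw [List.getElem?_append_left]
          · exact hj
          · by_contra hcon
            rw [List.getElem?_eq_none (by omega)] at hj
            cases hj)
        rwa [zero_add] at h1
      · have h1 := h (ul.length + j) b (by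
          rw [List.getElem?_append_right (by omega)]
          rwa [Nat.add_sub_cancel_left])
        rwa [zero_add] at h1
    · rintro ⟨h1, h2⟩ j b hj
      rw [zero_add]
      by_cases hjl : j < ul.length
      · rw [List.getElem?_append_left hjl] at hj
        exact h1 j b hj
      · rw [List.getElem?_append_right (by omega)] at hj
        have h3 := h2 (j - ul.length) b hj
        rwa [show ul.length + (j - ul.length) = j by omega] at h3
  rw [key]
  tauto

/-- the formula with the designated variables `inr j` -/
def phi (pre : List Bool) (m N : ℕ) : List (List (Bool × (Var Q K A ⊕ ℕ))) :=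
  (headC D pre m ++ restC D (pre.length + m) N).map
      (fun c => c.map (fun l => (l.1, (Sum.inl l.2 : Var Q K A ⊕ ℕ)))) ++
    (List.range m).flatMap (fun j =>
      [[(false, Sum.inr j), (true, Sum.inl (Var.ce 0 D.k₀ j (some (D.sym true))))],
       [(true, Sum.inr j), (true, Sum.inl (Var.ce 0 D.k₀ j (some (D.sym false))))]])

theorem holds_map_inl {V W : Type} {τ : V ⊕ W → Bool} (φ : List (List (Bool × V))) :
    Holds τ (φ.map (fun c => c.map (fun l => (l.1, (Sum.inl l.2 : V ⊕ W))))) ↔
      Holds (fun v => τ (Sum.inl v)) φ := by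
  constructor
  · intro h c hc
    obtain ⟨l, hl, hl'⟩ := h _ (List.mem_map.2 ⟨c, hc, rfl⟩)
    obtain ⟨l0, hl0, rfl⟩ := List.mem_map.1 hl
    exact ⟨l0, hl0, hl'⟩
  · intro h c hc
    obtain ⟨c0, hc0, rfl⟩ := List.mem_map.1 hc
    obtain ⟨l, hl, hl'⟩ := h c0 hc0
    exact ⟨_, List.mem_map.2 ⟨l, hl, rfl⟩, hl'⟩

theorem phi_iff (pre : List Bool) (m N : ℕ) (u : ℕ → Bool) :
    (∃ τ, Holds τ (phi D pre m N) ∧ ∀ j < m, τ (Sum.inr j) = u j) ↔
      ∃ τ, Holds τ (formula D 0 (pre ++ ((List.range m).map u).reverse) N) := by
  have hget : ∀ j b, ((List.range m).map u)[j]? = some b ↔ j < m ∧ u j = b := by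
    intro j b
    rw [List.getElem?_map]
    by_cases hj : j < m
    · simp [hj]
    · simp [hj]
  constructor
  · rintro ⟨τ, h1, h2⟩
    refine ⟨fun v => τ (Sum.inl v), ?_⟩
    rw [phi, Holds.append_iff, holds_map_inl, Holds.append_iff] at h1
    obtain ⟨⟨h3, h4⟩, h5⟩ := h1
    rw [holds_formula]
    refine ⟨by simpa using h3, ?_, by simpa using h4⟩
    intro j b hj
    rw [hget] at hj
    obtain ⟨hj, rfl⟩ := hj
    cases hb : u j with
    | true =>
      obtain ⟨l, hl, hl'⟩ := h5 [(false, Sum.inr j),
        (true, Sum.inl (Var.ce 0 D.k₀ j (some (D.sym true))))]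
        (List.mem_flatMap.2 ⟨j, List.mem_range.2 hj, by simp⟩)
      simp only [List.mem_cons, List.not_mem_nil, or_false] at hl
      rcases hl with rfl | rfl
      · simp only at hl'
        rw [h2 j hj, hb] at hl'
        cases hl'
      · exact hl'
    | false =>
      obtain ⟨l, hl, hl'⟩ := h5 [(true, Sum.inr j),
        (true, Sum.inl (Var.ce 0 D.k₀ j (some (D.sym false))))]
        (List.mem_flatMap.2 ⟨j, List.mem_range.2 hj, by simp⟩)
      simp only [List.mem_cons, List.not_mem_nil, or_false] at hl
      rcases hl with rfl | rfl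
      · simp only at hl'
        rw [h2 j hj, hb] at hl'
        cases hl'
      · exact hl'
  · rintro ⟨τ, h⟩
    rw [holds_formula] at h
    obtain ⟨h1, h2, h3⟩ := h
    simp only [List.length_map, List.length_range] at h1 h3
    refine ⟨Sum.elim τ u, ?_, fun j _ => rfl⟩
    rw [phi, Holds.append_iff, holds_map_inl, Holds.append_iff]
    refine ⟨⟨h1, h3⟩, ?_⟩
    intro c hc
    obtain ⟨j, hj, hc⟩ := List.mem_flatMap.1 hc
    rw [List.mem_range] at hj
    have h4 := h2 j (u j) ((hget j (u j)).2 ⟨hj, rfl⟩)
    simp only [List.mem_cons, List.not_mem_nil, or_false] at hc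
    rcases hc with rfl | rfl
    · cases hb : u j with
      | false => exact ⟨_, List.mem_cons_self, hb⟩
      | true =>
        rw [hb] at h4
        exact ⟨_, List.mem_cons_of_mem _ (List.mem_singleton_self _), h4⟩
    · cases hb : u j with
      | true => exact ⟨_, List.mem_cons_self, hb⟩
      | false =>
        rw [hb] at h4
        exact ⟨_, List.mem_cons_of_mem _ (List.mem_singleton_self _), h4⟩

end

section

variable {Q K A : Type} [TEnc Q] [TEnc K] [TEnc A] [Fintype Q] [Fintype K] [Fintype A]
  [DecidableEq K] (D : Tab Q K A) {α : Type} [TEnc α]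

theorem pHead {m : α → ℕ} {pre : α → List Bool} (hm : Poly m) (hp : Poly pre) :
    Poly (fun a => headC D (pre a) (m a)) := by
  refine Poly.cons (Poly.const _) (Poly.append ?_ ?_)
  · refine Poly.map (F := fun a k => [(true, Var.hp 0 k (if k = D.k₀ then
      0 + ((pre a).length + m a) else 0))]) (Poly.const _) ?_
    refine pList1 (Poly.pair (Poly.const true) (pHp (Poly.const 0) (Poly.snd Poly.id) ?_))
    exact Poly.ite (Poly.decide_eq (Poly.snd Poly.id) (Poly.const _))
      (Poly.add (Poly.const 0) (Poly.add (Poly.length (hp.comp (Poly.fst Poly.id)))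
        (hm.comp (Poly.fst Poly.id))))
      (Poly.const 0)
  · refine Poly.map (F := fun a (p : Bool × ℕ) => [(true, Var.ce 0 D.k₀ (m a + p.2)
      (some (D.sym p.1)))]) (Poly.zipIdx (Poly.reverse hp)) ?_
    exact pList1 (Poly.pair (Poly.const true) (pCe (Poly.const 0) (Poly.const _)
      (Poly.add (hm.comp (Poly.fst Poly.id)) (Poly.snd (Poly.snd Poly.id)))
      (Poly.some ((polyOfFintype D.sym).comp (Poly.fst (Poly.snd Poly.id))))))

theorem pRest {L N : α → ℕ} (hL : UPoly L) (hN : UPoly N) :
    Poly (fun a => restC D (L a) (N a)) := by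
  have hH : UPoly (fun a => 0 + L a + N a + 1) :=
    UPoly.add (UPoly.add (UPoly.add (UPoly.const 0) hL) hN) (UPoly.const 1)
  have key : Poly (fun a => (List.range (N a)).flatMap (fun t =>
      (List.range (0 + L a + N a + 1)).flatMap (fun h => tClauses D t
        (min h (0 + L a + N a + 1))))) := by
    refine Poly.flatMap (F := fun a t => (List.range (0 + L a + N a + 1)).flatMap
      (fun h => tClauses D t (min h (0 + L a + N a + 1)))) hN.range ?_
    refine Poly.flatMap (F := fun (p : α × ℕ) h => tClauses D p.2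
      (min h (0 + L p.1 + N p.1 + 1)))
      (hH.range.comp (Poly.fst Poly.id)) ?_
    refine pT D (Poly.snd (Poly.fst Poly.id)) ?_
    refine UPoly.of_le (Poly.min (Poly.snd Poly.id) (hH.toPoly.comp (Poly.fst (Poly.fst Poly.id))))
      (hH.comp (Poly.fst (Poly.fst Poly.id))) (fun x => ?_)
    exact min_le_right _ _
  refine (Poly.append key (pFi D hN.toPoly hH)).congr fun a => ?_
  rw [restC]
  congr 1
  apply List.flatMap_congr
  intro t _
  apply List.flatMap_congr
  intro h hh
  rw [List.mem_range] at hh
  rw [min_eq_left hh.le]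

theorem pPhi {m N : α → ℕ} {pre : α → List Bool} (hm : UPoly m) (hN : UPoly N) (hp : Poly pre) :
    Poly (fun a => phi D (pre a) (m a) (N a)) := by
  have h1 := pHead D hm.toPoly hp
  have h2 := pRest D (UPoly.add (UPoly.length hp) hm) hN
  refine Poly.append ?_ ?_
  · refine Poly.map (F := fun _ c => c.map (fun l => (l.1, (Sum.inl l.2 : Var Q K A ⊕ ℕ))))
      (Poly.append h1 h2) ?_
    exact Poly.map (F := fun _ (l : Bool × Var Q K A) => (l.1, (Sum.inl l.2 : Var Q K A ⊕ ℕ)))
      (Poly.snd Poly.id) (Poly.pair (Poly.fst (Poly.snd Poly.id))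
        (Poly.inl (Poly.snd (Poly.snd Poly.id))))
  · refine Poly.flatMap (F := fun _ j =>
      [[(false, Sum.inr j), (true, Sum.inl (Var.ce 0 D.k₀ j (some (D.sym true))))],
       [(true, Sum.inr j), (true, Sum.inl (Var.ce 0 D.k₀ j (some (D.sym false))))]]) hm.range ?_
    have f : Poly (fun x : α × ℕ => x.2) := Poly.snd Poly.id
    exact pList2
      (pList2 (Poly.pair (Poly.const _) (Poly.inr f)) (Poly.pair (Poly.const _)
        (Poly.inl (pCe (Poly.const 0) (Poly.const _) f (Poly.const _)))))
      (pList2 (Poly.pair (Poly.const _) (Poly.inr f)) (Poly.pair (Poly.const _)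
        (Poly.inl (pCe (Poly.const 0) (Poly.const _) f (Poly.const _)))))

end

/-- **Circuit lemma.** -/
theorem circ (R : List Bool × List Bool → Bool) (hR : Poly R) :
    ∃ (V : Type) (_ : TEnc V) (X : ℕ → V) (φ : List Bool → ℕ → List (List (Bool × V))),
      Function.Injective X ∧ Poly X ∧
      (∀ (m : List Bool → ℕ), UPoly m → Poly (fun x => φ x (m x))) ∧
      ∀ (x : List Bool) (m : ℕ) (u : ℕ → Bool),
        (∃ τ, Holds τ (φ x m) ∧ ∀ j < m, τ (X j) = u j) ↔ R (x, (List.range m).map u) = true := by
  have hV : PolyTime (fun s => [R ((unpair s).1, (unpair s).2.reverse)]) :=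
    polyTime_of_poly (hR.comp (Poly.pair (Poly.fst poly_unpair)
      (Poly.reverse (Poly.snd poly_unpair))))
  obtain ⟨hV⟩ := hV
  let _ := encFintype (NQ hV.tm)
  let _ := encFintype hV.tm.K
  let _ := encFintype (NA hV.tm)
  set D := tab hV.tm hV.inputAlphabet hV.outputAlphabet with hD
  set NN : Polynomial ℕ := hV.time * Polynomial.C (maxDepth hV.tm) with hNN
  refine ⟨Var (NQ hV.tm) hV.tm.K (NA hV.tm) ⊕ ℕ, inferInstance, fun j => Sum.inr j,
    fun x m => phi D (pairPre x) m (NN.eval (2 * x.length + 1 + m)), Sum.inr_injective,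
    Poly.inr Poly.id, ?_, ?_⟩
  · intro m hm
    exact pPhi D hm (UPoly.eval (UPoly.add (UPoly.add (UPoly.mul (UPoly.const 2)
      (UPoly.length Poly.id)) (UPoly.const 1)) hm) NN) (pPre Poly.id)
  · intro x m u
    rw [phi_iff]
    set ul := (List.range m).map u with hul
    have hlen : (pairPre x ++ ul.reverse).length = 2 * x.length + 1 + m := by
      simp [pairPre_length, hul]
    have hcor := tab_correct hV.tm hV.inputAlphabet hV.outputAlphabet
      (fun s => [R ((unpair s).1, (unpair s).2.reverse)])
      (hV.time.eval (2 * x.length + 1 + m)) (NN.eval (2 * x.length + 1 + m)) 0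
      (pairPre x ++ ul.reverse) [] (by simp)
      (by
        have := hV.outputsFun ((pairPre x ++ ul.reverse) ++ [])
        simp only [id_eq, List.append_nil, hlen] at this ⊢
        exact this)
      (by rw [hNN, Polynomial.eval_mul, Polynomial.eval_C])
    rw [← hD] at hcor
    have hV' : (fun s => [R ((unpair s).1, (unpair s).2.reverse)])
        ((pairPre x ++ ul.reverse) ++ []) = [R (x, ul)] := by
      rw [List.append_nil, ← pairBits_eq]
      simp only [unpair_pairBits, List.reverse_reverse]
    beta_reduce at hV'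
    rw [hV'] at hcor
    have hR' : R (x, ul) = true ↔ [R (x, ul)] = [true] := by simp
    rw [hR', hcor]
    constructor
    · rintro ⟨τ, hτ⟩
      obtain ⟨w, hw, hacc⟩ := formula_complete (fun q => by simp [hD, tab])
        (fun k => by simp [hD, tab]) (fun o => by simp [hD, tab]) hτ
      have : w = [] := List.length_eq_zero_iff.1 (by omega)
      rw [this] at hacc
      exact hacc
    · intro h
      exact ⟨_, formula_sound D 0 _ [] _ (by simp) h⟩

end Pool.Agent.NPC.Circ
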