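import Pool.Agent.H634R2.Circ
import Pool.Agent.H550R2.Iso.Machine
import Pool.Agent.H679R2.Mix.Csp

/-!
# T2: languages in `PSPACE` as reachability problems for undirected relations given by formulas
-/

namespace Pool.Agent.NPC.Mix.T2

open Pool.Agent.H623R2.PS (InPSPACE)
open CL Turing
open PIso hiding InPSPACE

/-- the two definitions of `PSPACE` -/
theorem conv {L : Set (List Bool)} (hL : InPSPACE L) : PIso.InPSPACE L := by
  obtain ⟨f, M, p, hx, hp⟩ := hL
  refine ⟨M.tm, M.inputAlphabet, M.outputAlphabet, p, fun x => ⟨?_, ?_⟩⟩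
  · obtain ⟨n, hn⟩ := M.outputsFun x
    exact ⟨n, f x, by rw [hx x], hn⟩
  · intro i c hc k
    have hr : ∀ (i : ℕ) (c : M.tm.Cfg), (flip bind M.tm.step)^[i]
        (some (initList M.tm (x.map M.inputAlphabet.symm))) = some c →
        StateTransition.Reaches M.tm.step (initList M.tm (x.map M.inputAlphabet.invFun)) c := by
      intro i
      induction i with
      | zero =>
        intro c hc
        rw [Function.iterate_zero, id, Option.some.injEq] at hc
        subst hc
        exact Relation.ReflTransGen.refl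
      | succ i ih =>
        intro c hc
        rw [Function.iterate_succ_apply'] at hc
        cases h : (flip bind M.tm.step)^[i]
            (some (initList M.tm (x.map M.inputAlphabet.symm))) with
        | none =>
          rw [h] at hc
          have hc' : (none : Option M.tm.Cfg) = some c := hc
          cases hc'
        | some c' =>
          rw [h] at hc
          exact (ih c' h).tail hc
    have h1 := hp x c (hr i c hc)
    refine le_trans ?_ h1
    let _ := M.tm.kFin
    exact Finset.single_le_sum (f := fun k => (c.stk k).length) (fun _ _ => Nat.zero_le _)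
      (Finset.mem_univ k)

section dyn

variable {L : Set (List Bool)} (D : Sys L) (x : List Bool)

/-- the exponent -/
def KK : ℕ := D.N.eval x.length

/-- the step function with a flag and a clock -/
def F (s : ℕ) : ℕ :=
  if s % 2 = 1 then s else
  if D.H (s / 2 % 2 ^ KK D x) = true then
    (if D.A (s / 2 % 2 ^ KK D x) = true then s + 1 else 2 * D.c₀ x) else
  if D.δ (s / 2 % 2 ^ KK D x) < 2 ^ KK D x ∧ s / 2 ^ (KK D x + 1) + 1 < 2 ^ (KK D x + 1) then
    2 * (D.δ (s / 2 % 2 ^ KK D x) + 2 ^ KK D x * (s / 2 ^ (KK D x + 1) + 1)) else 2 * D.c₀ x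

theorem e_two (c m P : ℕ) : 2 * (c + P * m) % 2 = 0 := Nat.mul_mod_right _ _

theorem e_c {c m P : ℕ} (hc : c < P) : 2 * (c + P * m) / 2 % P = c := by
  rw [Nat.mul_div_cancel_left _ (by norm_num), Nat.add_mul_mod_self_left, Nat.mod_eq_of_lt hc]

theorem e_m {c m k : ℕ} (hc : c < 2 ^ k) : 2 * (c + 2 ^ k * m) / 2 ^ (k + 1) = m := by
  have hP : 0 < 2 ^ k := by positivity
  rw [pow_succ', ← Nat.div_div_eq_div_mul, Nat.mul_div_cancel_left _ (by norm_num),
    Nat.add_mul_div_left _ _ hP, Nat.div_eq_of_lt hc, zero_add]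

theorem F_odd {s : ℕ} (h : s % 2 = 1) : F D x s = s := by
  unfold F
  rw [if_pos h]

theorem F_e {c m : ℕ} (hc : c < 2 ^ KK D x) : F D x (2 * (c + 2 ^ KK D x * m)) =
    if D.H c = true then (if D.A c = true then 2 * (c + 2 ^ KK D x * m) + 1 else 2 * D.c₀ x) else
    if D.δ c < 2 ^ KK D x ∧ m + 1 < 2 ^ (KK D x + 1) then
      2 * (D.δ c + 2 ^ KK D x * (m + 1)) else 2 * D.c₀ x := by
  unfold F
  rw [if_neg (by rw [e_two]; norm_num), e_c hc, e_m hc]

/-- from every state the run reaches a flagged state or the initial state -/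
theorem reach (d : ℕ) : ∀ s, 2 ^ (KK D x + 1) ≤ s / 2 ^ (KK D x + 1) + d →
    ∃ i, (F D x)^[i] s % 2 = 1 ∨ (F D x)^[i] s = 2 * D.c₀ x := by
  induction d with
  | zero =>
    intro s hs
    by_cases h1 : s % 2 = 1
    · exact ⟨0, Or.inl h1⟩
    · refine ⟨1, ?_⟩
      rw [Function.iterate_one]
      unfold F
      rw [if_neg h1]
      by_cases h2 : D.H (s / 2 % 2 ^ KK D x) = true
      · rw [if_pos h2]
        by_cases h3 : D.A (s / 2 % 2 ^ KK D x) = true
        · rw [if_pos h3]; left; omega
        · rw [if_neg h3]; right; rfl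
      · rw [if_neg h2, if_neg (by rintro ⟨_, h⟩; omega)]
        right; rfl
  | succ d ih =>
    intro s hs
    by_cases h1 : s % 2 = 1
    · exact ⟨0, Or.inl h1⟩
    · by_cases h2 : D.H (s / 2 % 2 ^ KK D x) = true
      · refine ⟨1, ?_⟩
        rw [Function.iterate_one]
        unfold F
        rw [if_neg h1, if_pos h2]
        by_cases h3 : D.A (s / 2 % 2 ^ KK D x) = true
        · rw [if_pos h3]; left; omega
        · rw [if_neg h3]; right; rfl
      · by_cases h3 : D.δ (s / 2 % 2 ^ KK D x) < 2 ^ KK D x ∧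
            s / 2 ^ (KK D x + 1) + 1 < 2 ^ (KK D x + 1)
        · have h4 : F D x s = 2 * (D.δ (s / 2 % 2 ^ KK D x) + 2 ^ KK D x *
              (s / 2 ^ (KK D x + 1) + 1)) := by
            conv_lhs => unfold F
            rw [if_neg h1, if_neg h2, if_pos h3]
          have h5 : F D x s / 2 ^ (KK D x + 1) = s / 2 ^ (KK D x + 1) + 1 := by
            rw [h4, e_m h3.1]
          obtain ⟨i, hi⟩ := ih (F D x s) (by rw [h5]; omega)
          refine ⟨i + 1, ?_⟩
          rw [Function.iterate_succ_apply]
          exact hi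
        · refine ⟨1, ?_⟩
          rw [Function.iterate_one]
          right
          unfold F
          rw [if_neg h1, if_neg h2, if_neg h3]

/-- the run from the initial state -/
theorem run_init : ∃ t, t < 2 ^ KK D x ∧ (∀ i ≤ t, D.δ^[i] (D.c₀ x) < 2 ^ KK D x) ∧
    (∀ i ≤ t, (F D x)^[i] (2 * D.c₀ x) = 2 * (D.δ^[i] (D.c₀ x) + 2 ^ KK D x * i)) ∧
    (F D x)^[t + 1] (2 * D.c₀ x) = (if D.A (D.δ^[t] (D.c₀ x)) = true then
      2 * (D.δ^[t] (D.c₀ x) + 2 ^ KK D x * t) + 1 else 2 * D.c₀ x) ∧
    (x ∈ L ↔ D.A (D.δ^[t] (D.c₀ x)) = true) := by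
  obtain ⟨t, h1, h2, h3, h4⟩ := D.halts x
  have hlt : t < 2 ^ KK D x := by
    have hinj : Set.InjOn (fun i => D.δ^[i] (D.c₀ x)) (Finset.range (t + 1) : Set ℕ) := by
      have key : ∀ i j, i < j → j ≤ t → D.δ^[i] (D.c₀ x) = D.δ^[j] (D.c₀ x) → False := by
        intro i j hij hj heq
        have h5 : D.δ^[(t - j) + i] (D.c₀ x) = D.δ^[t] (D.c₀ x) := by
          rw [Function.iterate_add_apply, heq, ← Function.iterate_add_apply]
          congr 1
          omega
        have h6 := h3 ((t - j) + i) (by omega)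
        rw [h5, h2] at h6
        cases h6
      intro i hi j hj heq
      rw [Finset.coe_range, Set.mem_Iio] at hi hj
      by_contra hne
      rcases Nat.lt_or_gt_of_ne hne with h | h
      · exact key i j h (by omega) heq
      · exact key j i h (by omega) heq.symm
    have hmaps : ∀ i ∈ Finset.range (t + 1), D.δ^[i] (D.c₀ x) ∈ Finset.range (2 ^ KK D x) := by
      intro i hi
      rw [Finset.mem_range] at hi ⊢
      exact h1 i (by omega)
    have := Finset.card_le_card_of_injOn _ hmaps hinj
    rw [Finset.card_range, Finset.card_range] at this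
    omega
  have hit : ∀ i ≤ t, (F D x)^[i] (2 * D.c₀ x) = 2 * (D.δ^[i] (D.c₀ x) + 2 ^ KK D x * i) := by
    intro i
    induction i with
    | zero => intro _; simp
    | succ i ih =>
      intro hi
      rw [Function.iterate_succ_apply', ih (by omega), F_e D x (h1 i (by omega)),
        if_neg (by rw [h3 i (by omega)]; simp), ← Function.iterate_succ_apply' D.δ,
        if_pos ⟨h1 (i + 1) hi, by
          have : 2 ^ (KK D x + 1) = 2 * 2 ^ KK D x := pow_succ' _ _
          omega⟩]
  refine ⟨t, hlt, h1, hit, ?_, h4⟩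
  rw [Function.iterate_succ_apply', hit t le_rfl, F_e D x (h1 t le_rfl), if_pos h2]

theorem flag_of_mem (hx : x ∈ L) (s : ℕ) : ∃ i, (F D x)^[i] s % 2 = 1 := by
  obtain ⟨i, hi | hi⟩ := reach D x (2 ^ (KK D x + 1)) s (Nat.le_add_left _ _)
  · exact ⟨i, hi⟩
  · obtain ⟨t, _, _, _, h4, h5⟩ := run_init D x
    refine ⟨(t + 1) + i, ?_⟩
    rw [Function.iterate_add_apply, hi, h4, if_pos (h5.1 hx)]
    omega

theorem no_flag (hx : x ∉ L) (i : ℕ) : (F D x)^[i] (2 * D.c₀ x) % 2 = 0 := by
  obtain ⟨t, h1, h2, h3, h4, h5⟩ := run_init D x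
  have hA : ¬ D.A (D.δ^[t] (D.c₀ x)) = true := fun h => hx (h5.2 h)
  rw [if_neg hA] at h4
  have key : ∀ i, ∃ j ≤ t, (F D x)^[i] (2 * D.c₀ x) = (F D x)^[j] (2 * D.c₀ x) := by
    intro i
    induction i with
    | zero => exact ⟨0, by omega, rfl⟩
    | succ i ih =>
      obtain ⟨j, hj, hij⟩ := ih
      rw [Function.iterate_succ_apply', hij, ← Function.iterate_succ_apply' (F D x)]
      by_cases hjt : j = t
      · subst hjt
        exact ⟨0, by omega, h4⟩
      · exact ⟨j + 1, by omega, rfl⟩
  obtain ⟨j, hj, hij⟩ := key i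
  rw [hij, h3 j hj, e_two]

theorem F_lt {s : ℕ} (hs : s < 2 ^ (2 * KK D x + 2)) : F D x s < 2 ^ (2 * KK D x + 2) := by
  have hc := D.c₀_lt x
  have hM : D.M x = 2 ^ KK D x := rfl
  rw [hM] at hc
  have e1 : 2 ^ (2 * KK D x + 2) = 4 * (2 ^ KK D x * 2 ^ KK D x) := by
    rw [pow_add, two_mul, pow_add]; ring
  have hP : 0 < 2 ^ KK D x := by positivity
  have h0 : 2 * D.c₀ x < 2 ^ (2 * KK D x + 2) := by
    rw [e1]
    nlinarith
  unfold F
  split_ifs with a1 a2 a3 a4
  · exact hs
  · have : 2 ^ (2 * KK D x + 2) = 2 * 2 ^ (2 * KK D x + 1) := pow_succ' _ _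
    omega
  · exact h0
  · obtain ⟨b1, b2⟩ := a4
    rw [e1]
    have : 2 ^ (KK D x + 1) = 2 * 2 ^ KK D x := pow_succ' _ _
    rw [this] at b2 ⊢
    generalize s / (2 * 2 ^ KK D x) = m at *
    generalize D.δ (s / 2 % 2 ^ KK D x) = c at *
    nlinarith
  · exact h0

theorem iter_lt {s : ℕ} (hs : s < 2 ^ (2 * KK D x + 2)) (i : ℕ) :
    (F D x)^[i] s < 2 ^ (2 * KK D x + 2) := by
  induction i with
  | zero => exact hs
  | succ i ih =>
    rw [Function.iterate_succ_apply']
    exact F_lt D x ih

end dyn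

/-- the number of a bit string -/
def num (n : ℕ) (v : ℕ → Bool) : ℕ := valB ((List.range n).map v)

theorem num_lt (n : ℕ) (v : ℕ → Bool) : num n v < 2 ^ n := by
  have := valB_lt ((List.range n).map v)
  simpa [num] using this

theorem exists_num {n s : ℕ} (hs : s < 2 ^ n) : ∃ v, num n v = s := by
  refine ⟨fun i => (pad n s).getD i false, ?_⟩
  unfold num
  have h1 : (List.range n).map (fun i => (pad n s).getD i false) = pad n s := by
    apply List.ext_getElem
    · simp [pad_length hs]
    · intro i h2 h3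
      simp [List.getD_eq_getElem?_getD, h3]
  rw [h1, valB_pad]

theorem num_odd {n : ℕ} (hn : 0 < n) (v : ℕ → Bool) : v 0 = true ↔ num n v % 2 = 1 := by
  obtain ⟨m, rfl⟩ := Nat.exists_eq_succ_of_ne_zero hn.ne'
  unfold num
  rw [List.range_succ_eq_map, List.map_cons, valB_cons]
  cases v 0 <;> simp

theorem num_pair (n : ℕ) (v w : ℕ → Bool) :
    valB ((List.range (2 * n)).map (fun j => if j < n then v j else w (j - n))) =
      num n v + 2 ^ n * num n w := by
  have h1 : (List.range (2 * n)).map (fun j => if j < n then v j else w (j - n)) =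
      (List.range n).map v ++ (List.range n).map w := by
    rw [two_mul, List.range_add, List.map_append, List.map_map]
    congr 1
    · apply List.map_congr_left
      intro j hj
      rw [List.mem_range] at hj
      simp [hj]
    · apply List.map_congr_left
      intro j _
      simp
  rw [h1, valB_append]
  simp [num]

section test

variable {L : Set (List Bool)} (D : Sys L)

/-- the test -/
def test (p : List Bool × List Bool) : Bool :=
  decide (valB p.2 / 2 ^ (2 * KK D p.1 + 2) = F D p.1 (valB p.2 % 2 ^ (2 * KK D p.1 + 2))) ||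
    decide (valB p.2 / 2 ^ (2 * KK D p.1 + 2) = valB p.2 % 2 ^ (2 * KK D p.1 + 2))

theorem upoly_KK {α : Type} [TEnc α] {x : α → List Bool} (hx : Poly x) :
    UPoly (fun a => KK D (x a)) := D.upoly_N hx

theorem poly_F {α : Type} [TEnc α] {x : α → List Bool} {s : α → ℕ} (hx : Poly x) (hs : Poly s) :
    Poly (fun a => F D (x a) (s a)) := by
  have hK : Poly (fun a => 2 ^ KK D (x a)) := poly_two_pow (upoly_KK D hx)
  have hK1 : Poly (fun a => 2 ^ (KK D (x a) + 1)) :=
    poly_two_pow (UPoly.add (upoly_KK D hx) (UPoly.const 1))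
  have hc : Poly (fun a => s a / 2 % 2 ^ KK D (x a)) := by fun_prop
  have hm : Poly (fun a => s a / 2 ^ (KK D (x a) + 1) + 1) := by fun_prop
  have hH : Poly (fun a => D.H (s a / 2 % 2 ^ KK D (x a))) := D.poly_H.comp hc
  have hA : Poly (fun a => D.A (s a / 2 % 2 ^ KK D (x a))) := D.poly_A.comp hc
  have hδ : Poly (fun a => D.δ (s a / 2 % 2 ^ KK D (x a))) := D.poly_δ.comp hc
  have h0 : Poly (fun a => 2 * D.c₀ (x a)) := Poly.mul (Poly.const 2) (D.poly_c₀.comp hx)
  unfold F
  refine Poly.ite (Poly.decide_eq (Poly.mod hs (Poly.const 2)) (Poly.const 1)) hs ?_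
  refine Poly.ite (Poly.decide_bool hH) (Poly.ite (Poly.decide_bool hA)
    (Poly.add hs (Poly.const 1)) h0) ?_
  refine Poly.ite (Poly.decide_and (Poly.decide_lt hδ hK) (Poly.decide_lt hm hK1)) ?_ h0
  exact Poly.mul (Poly.const 2) (Poly.add hδ (Poly.mul hK hm))

theorem poly_test : Poly (test D) := by
  have hx : Poly (fun p : List Bool × List Bool => p.1) := Poly.fst Poly.id
  have hu : Poly (fun p : List Bool × List Bool => valB p.2) := Poly.valBits (Poly.snd Poly.id)
  have hP : Poly (fun p : List Bool × List Bool => 2 ^ (2 * KK D p.1 + 2)) :=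
    poly_two_pow (UPoly.add (UPoly.mul (UPoly.const 2) (upoly_KK D hx)) (UPoly.const 2))
  exact Poly.or (Poly.decide_eq (Poly.div hu hP) (poly_F D hx (Poly.mod hu hP)))
    (Poly.decide_eq (Poly.div hu hP) (Poly.mod hu hP))

theorem test_iff (x : List Bool) (v w : ℕ → Bool) :
    test D (x, (List.range (2 * (2 * KK D x + 2))).map
      (fun j => if j < 2 * KK D x + 2 then v j else w (j - (2 * KK D x + 2)))) = true ↔
      num (2 * KK D x + 2) w = F D x (num (2 * KK D x + 2) v) ∨
        num (2 * KK D x + 2) w = num (2 * KK D x + 2) v := by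
  unfold test
  simp only [num_pair]
  have h1 := num_lt (2 * KK D x + 2) v
  have hP : 0 < 2 ^ (2 * KK D x + 2) := by positivity
  rw [Nat.add_mul_div_left _ _ hP, Nat.div_eq_of_lt h1, zero_add, Nat.add_mul_mod_self_left,
    Nat.mod_eq_of_lt h1]
  simp

end test

/-- T2 -/
theorem exists_relsys {L : Set (List Bool)} (hL : InPSPACE L) :
    ∃ (V : Type) (_ : TEnc V) (X : ℕ → V) (n : List Bool → ℕ)
      (φ : List Bool → List (List (Bool × V))),
      Function.Injective X ∧ Poly X ∧ UPoly n ∧ Poly φ ∧ (∀ x, 0 < n x) ∧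
      (∀ x v, RelE (φ x) X (n x) v v) ∧
      ∀ x, x ∈ L ↔ ∀ v : ℕ → Bool, ∃ w, w 0 = true ∧
        Relation.EqvGen (RelE (φ x) X (n x)) v w := by
  obtain ⟨D⟩ := exists_sys (conv hL)
  obtain ⟨V, _, X, φ, hX, hX', hφ, hφ'⟩ := Circ.circ (test D) (poly_test D)
  have hn : UPoly (fun x => 2 * KK D x + 2) :=
    UPoly.add (UPoly.mul (UPoly.const 2) (upoly_KK D Poly.id)) (UPoly.const 2)
  have hrel : ∀ x v w, RelE (φ x (2 * (2 * KK D x + 2))) X (2 * KK D x + 2) v w ↔
      num (2 * KK D x + 2) w = F D x (num (2 * KK D x + 2) v) ∨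
        num (2 * KK D x + 2) w = num (2 * KK D x + 2) v := by
    intro x v w
    rw [← test_iff, ← hφ']
    unfold RelE Holds
    constructor
    · rintro ⟨τ, h1, h2, h3⟩
      refine ⟨τ, h1, fun j hj => ?_⟩
      by_cases hj' : j < 2 * KK D x + 2
      · rw [if_pos hj', h2 j hj']
      · rw [if_neg hj', ← h3 (j - (2 * KK D x + 2)) (by omega)]
        congr 2
        omega
    · rintro ⟨τ, h1, h2⟩
      refine ⟨τ, h1, fun i hi => ?_, fun i hi => ?_⟩
      · rw [h2 i (by omega), if_pos hi]
      · rw [h2 (2 * KK D x + 2 + i) (by omega), if_neg (by omega)]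
        congr 1
        omega
  refine ⟨V, inferInstance, X, fun x => 2 * KK D x + 2, fun x => φ x (2 * (2 * KK D x + 2)),
    hX, hX', hn, hφ _ (UPoly.mul (UPoly.const 2) hn), fun x => Nat.succ_pos _, ?_, ?_⟩
  · intro x v
    rw [hrel]
    exact Or.inr rfl
  · intro x
    constructor
    · intro hx v
      obtain ⟨i, hi⟩ := flag_of_mem D x hx (num (2 * KK D x + 2) v)
      have hv := num_lt (2 * KK D x + 2) v
      have key : ∀ i, ∃ w, num (2 * KK D x + 2) w = (F D x)^[i] (num (2 * KK D x + 2) v) ∧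
          Relation.EqvGen (RelE (φ x (2 * (2 * KK D x + 2))) X (2 * KK D x + 2)) v w := by
        intro i
        induction i with
        | zero => exact ⟨v, rfl, Relation.EqvGen.refl _⟩
        | succ i ih =>
          obtain ⟨w, hw, hvw⟩ := ih
          obtain ⟨w', hw'⟩ := exists_num (iter_lt D x hv (i + 1))
          refine ⟨w', hw', hvw.trans _ _ _ (Relation.EqvGen.rel _ _ ?_)⟩
          rw [hrel]
          left
          rw [hw', hw, Function.iterate_succ_apply']
      obtain ⟨w, hw, hvw⟩ := key i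
      refine ⟨w, ?_, hvw⟩
      rw [num_odd (n := 2 * KK D x + 2) (by omega), hw]
      exact hi
    · intro h
      by_contra hx
      have h0 : 2 * D.c₀ x < 2 ^ (2 * KK D x + 2) := by
        have hc := D.c₀_lt x
        have hM : D.M x = 2 ^ KK D x := rfl
        rw [hM] at hc
        have e1 : 2 ^ (2 * KK D x + 2) = 4 * (2 ^ KK D x * 2 ^ KK D x) := by
          rw [pow_add, two_mul, pow_add]; ring
        have hP : 0 < 2 ^ KK D x := by positivity
        rw [e1]
        nlinarith
      obtain ⟨v, hv⟩ := exists_num h0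
      obtain ⟨w, hw, hvw⟩ := h v
      have inv : ∀ a b, Relation.EqvGen (RelE (φ x (2 * (2 * KK D x + 2))) X (2 * KK D x + 2)) a b →
          ((∃ i, (F D x)^[i] (num (2 * KK D x + 2) a) % 2 = 1) ↔
            ∃ i, (F D x)^[i] (num (2 * KK D x + 2) b) % 2 = 1) := by
        intro a b hab
        induction hab with
        | rel a b hab =>
          rw [hrel] at hab
          rcases hab with hab | hab
          · rw [hab]
            constructor
            · rintro ⟨i, hi⟩
              cases i with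
              | zero =>
                refine ⟨0, ?_⟩
                rw [Function.iterate_zero, id] at hi ⊢
                rw [F_odd D x hi]
                exact hi
              | succ i =>
                refine ⟨i, ?_⟩
                rwa [Function.iterate_succ_apply] at hi
            · rintro ⟨i, hi⟩
              refine ⟨i + 1, ?_⟩
              rwa [Function.iterate_succ_apply]
          · rw [hab]
        | refl a => exact Iff.rfl
        | symm a b _ ih => exact ih.symm
        | trans a b c _ _ ih1 ih2 => exact ih1.trans ih2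
      have h1 := (inv v w hvw).2 ⟨0, by
        rw [Function.iterate_zero, id]
        exact (num_odd (by omega) w).1 hw⟩
      obtain ⟨i, hi⟩ := h1
      rw [hv, no_flag D x hx i] at hi
      omega

end Pool.Agent.NPC.Mix.T2
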