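import Pool.Agent.H679R2.Mix.Graph
import Pool.Agent.H671R2.PolyAuto
import Pool.Agent.NPC.Num

/-!
# The adjacency matrix of the graph of a numeric instance is polynomial-time computable
-/

namespace Pool.Agent.NPC.Mix.T9

variable {α : Type} [TEnc α]

theorem u_nv {I : α → NC} (hI : Poly I) : UPoly (fun a => nv (I a)) :=
  UPoly.length (Poly.fst hI)

theorem u_nw {I : α → NC} (hI : Poly I) : UPoly (fun a => nw (I a)) :=
  UPoly.length (Poly.snd hI)

theorem u_nM {I : α → NC} (hI : Poly I) : UPoly (fun a => nM (I a)) :=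
  UPoly.add (u_nv hI) (UPoly.mul (UPoly.const 5) (u_nw hI))

theorem u_nT {I : α → NC} (hI : Poly I) : UPoly (fun a => nT (I a)) :=
  UPoly.add (UPoly.mul (UPoly.const 32) (u_nM hI)) (UPoly.const 24)

@[fun_prop]
theorem p_nv {I : α → NC} (hI : Poly I) : Poly (fun a => nv (I a)) := (u_nv hI).toPoly
@[fun_prop]
theorem p_nw {I : α → NC} (hI : Poly I) : Poly (fun a => nw (I a)) := (u_nw hI).toPoly
@[fun_prop]
theorem p_nM {I : α → NC} (hI : Poly I) : Poly (fun a => nM (I a)) := (u_nM hI).toPoly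
@[fun_prop]
theorem p_nT {I : α → NC} (hI : Poly I) : Poly (fun a => nT (I a)) := (u_nT hI).toPoly

@[fun_prop]
theorem p_wr {I : α → NC} {e : α → ℕ} (hI : Poly I) (he : Poly e) :
    Poly (fun a => wr (I a) (e a)) := by
  unfold wr
  fun_prop

/-- `lst` as a function built from `Sum.elim` and `cond` -/
theorem lst_eq (I : NC) (u : ℕ ⊕ (ℕ × ℕ)) (c : ℕ) : lst I u c =
    Sum.elim (fun x => decide (c < 2) || (decide (c = 2) && !(I.1.getD x true)))
      (fun p : ℕ × ℕ =>
        bif decide (p.2 = 0) then decide (c = (wr I p.1).1.2) || decide (c = 3)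
        else bif decide (p.2 = 1) then decide (c = 3) || decide (c = gam (wr I p.1).1.2 (wr I p.1).2.2)
        else bif decide (p.2 = 2) then decide (c = gam (wr I p.1).1.2 (wr I p.1).2.2) ||
          decide (c = del (wr I p.1).1.2 (wr I p.1).2.2)
        else bif decide (p.2 = 3) then decide (c = del (wr I p.1).1.2 (wr I p.1).2.2) || decide (c = 3)
        else decide (c = 3) || decide (c = (wr I p.1).2.2)) u := by
  rcases u with x | ⟨e, j⟩ <;> rfl

@[fun_prop]
theorem p_gam {f g : α → ℕ} (hf : Poly f) (hg : Poly g) : Poly (fun a => gam (f a) (g a)) := by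
  unfold gam
  fun_prop

@[fun_prop]
theorem p_del {f g : α → ℕ} (hf : Poly f) (hg : Poly g) : Poly (fun a => del (f a) (g a)) := by
  unfold del
  fun_prop

@[fun_prop]
theorem p_lst {I : α → NC} {u : α → ℕ ⊕ (ℕ × ℕ)} {c : α → ℕ} (hI : Poly I) (hu : Poly u)
    (hc : Poly c) : Poly (fun a => lst (I a) (u a) (c a)) := by
  simp only [lst_eq]
  fun_prop

theorem pos_eq (I : NC) (u : ℕ ⊕ (ℕ × ℕ)) :
    pos I u = Sum.elim (fun x => x) (fun p : ℕ × ℕ => nv I + 5 * p.1 + p.2) u := by
  rcases u with x | ⟨e, j⟩ <;> rfl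

theorem sideM_eq (u : ℕ ⊕ (ℕ × ℕ)) :
    sideM u = Sum.elim (fun _ => true) (fun p : ℕ × ℕ => decide (p.2 % 2 = 1)) u := by
  rcases u with x | ⟨e, j⟩ <;> rfl

@[fun_prop]
theorem p_slot {I : α → NC} {u : α → ℕ ⊕ (ℕ × ℕ)} {c : α → ℕ} (hI : Poly I) (hu : Poly u)
    (hc : Poly c) : Poly (fun a => slot (I a) (u a) (c a)) := by
  unfold slot
  simp only [pos_eq, sideM_eq]
  fun_prop

@[fun_prop]
theorem p_nx {I : α → NC} {t : α → ℕ} (hI : Poly I) (ht : Poly t) :
    Poly (fun a => nx (I a) (t a)) := by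
  unfold nx
  fun_prop

theorem arc_eq (I : NC) (a b : Lb) : arc I a b =
    Sum.elim
      (fun p : ℕ × ℕ => Sum.elim
        (fun q : ℕ × ℕ =>
          (decide (nx I p.1 = q.1) && decide (p.2 < q.2) &&
            !(decide (q.1 = 0) && decide (p.2 = 0) && decide (q.2 = 2)))
          || (decide (p.1 + 1 = nT I) && decide (p.2 = 0) && decide (q.1 = 8) && decide (q.2 = 2)))
        (fun u : ℕ ⊕ (ℕ × ℕ) => (decide (p.1 = slot I u p.2) && !(lst I u p.2)) ||
          (decide (p.1 = 0) && decide (p.2 = 2) && decide (u = Sum.inl 0))) b)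
      (fun w : ℕ ⊕ (ℕ × ℕ) => Sum.elim (fun _ : ℕ × ℕ => false)
        (fun w' : ℕ ⊕ (ℕ × ℕ) => Sum.elim
          (fun x : ℕ => Sum.elim (fun _ : ℕ => false)
            (fun e : ℕ × ℕ => (decide (e.2 = 0) && decide (x = (wr I e.1).1.1)) ||
              (decide (e.2 = 4) && decide (x = (wr I e.1).2.1))) w')
          (fun e : ℕ × ℕ => Sum.elim (fun _ : ℕ => false)
            (fun e' : ℕ × ℕ => decide (e.1 = e'.1) && decide (e'.2 = e.2 + 1)) w') w) b) a := by
  rcases a with ⟨t, i⟩ | x | ⟨e, j⟩ <;> rcases b with ⟨s, i'⟩ | x' | ⟨e', j'⟩ <;> rfl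

@[fun_prop]
theorem p_arc {I : α → NC} {u v : α → Lb} (hI : Poly I) (hu : Poly u)
    (hv : Poly v) : Poly (fun a => arc (I a) (u a) (v a)) := by
  simp only [arc_eq]
  fun_prop

theorem adbk_eq (I : NC) (a b : Lbk) : adbk I a b =
    Sum.elim (fun x : Lb => Sum.elim (fun y : Lb => arc I x y || arc I y x) (fun _ : ℕ => true) b)
      (fun i : ℕ => Sum.elim (fun _ : Lb => true) (fun j : ℕ => !(decide (i = j))) b) a := by
  rcases a with a | i <;> rcases b with b | j
  · rfl
  · rfl
  · rfl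
  · simp [adbk]

@[fun_prop]
theorem p_adbk {I : α → NC} {u v : α → Lbk} (hI : Poly I) (hu : Poly u)
    (hv : Poly v) : Poly (fun a => adbk (I a) (u a) (v a)) := by
  simp only [adbk_eq]
  fun_prop

@[fun_prop]
theorem p_vertsk {I : α → NC} (k : ℕ) (hI : Poly I) : Poly (fun a => vertsk (I a) k) := by
  have h1 : Poly (fun a => List.range (nT (I a))) := (u_nT hI).range
  have h2 : Poly (fun a => List.range (nv (I a))) := (u_nv hI).range
  have h3 : Poly (fun a => List.range (nw (I a))) := (u_nw hI).range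
  have h4 : Poly (fun _ : α => List.range 4) := Poly.const _
  have h5 : Poly (fun _ : α => List.range 5) := Poly.const _
  have h6 : Poly (fun _ : α => List.range (k - 4)) := Poly.const _
  unfold vertsk verts
  fun_prop

theorem poly_matk (k : ℕ) : Poly (fun I : NC => matk I k) := by
  unfold matk
  have h : Poly (fun I : NC => vertsk I k) := p_vertsk k Poly.id
  fun_prop

end Pool.Agent.NPC.Mix.T9
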