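import Mathlib

set_option autoImplicit false

/-!
Coding of finite sets of unit types by lengths.
-/

namespace Pool.Agent.H700R2.Pcat

theorem coding (U : Type) [Fintype U] [DecidableEq U] : ∃ n : U → ℕ, (∀ i, 3 ≤ n i) ∧
    ∀ (E : Finset U) (μ : U → ℕ), ∑ i, μ i * n i = ∑ i ∈ E, n i →
      ∀ i, μ i = if i ∈ E then 1 else 0 := by
  obtain ⟨N, hN⟩ : ∃ N, N = Fintype.card U := ⟨_, rfl⟩
  obtain ⟨idx⟩ : Nonempty (U ≃ Fin N) := ⟨Fintype.equivFinOfCardEq hN.symm⟩
  set R := N + 3 with hR
  have hRN : 0 < R ^ N := by positivity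
  refine ⟨fun i => R ^ N + R ^ (idx i).val, ?_, ?_⟩
  · intro i
    have h1 : 0 < N := lt_of_le_of_lt (Nat.zero_le _) (idx i).2
    have h2 : R ^ 1 ≤ R ^ N := Nat.pow_le_pow_right (by omega) h1
    rw [pow_one] at h2
    show 3 ≤ R ^ N + R ^ (idx i).val
    omega
  · intro E μ h
    set ν : U → ℕ := fun i => if i ∈ E then 1 else 0 with hν
    -- digits
    have key : ∀ (μ : U → ℕ) (hμ : ∀ i, μ i < R), ∑ i, μ i * R ^ (idx i).val =
        (finFunctionFinEquiv (fun j => (⟨μ (idx.symm j), hμ _⟩ : Fin R)) : Fin (R ^ N)).val := by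
      intro μ hμ
      rw [finFunctionFinEquiv_apply, ← Equiv.sum_comp idx]
      refine Finset.sum_congr rfl fun i _ => ?_
      simp
    have hsplit : ∀ μ : U → ℕ, ∑ i, μ i * (R ^ N + R ^ (idx i).val) =
        (∑ i, μ i) * R ^ N + ∑ i, μ i * R ^ (idx i).val := by
      intro μ
      rw [Finset.sum_mul, ← Finset.sum_add_distrib]
      exact Finset.sum_congr rfl fun i _ => by ring
    have hE : ∑ i ∈ E, (R ^ N + R ^ (idx i).val) = ∑ i, ν i * (R ^ N + R ^ (idx i).val) := by
      simp only [hν, ite_mul, one_mul, zero_mul]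
      rw [Finset.sum_ite_mem, Finset.univ_inter]
    have h' : ∑ i, μ i * (R ^ N + R ^ (idx i).val) = ∑ i, ν i * (R ^ N + R ^ (idx i).val) := by
      rw [← hE]; exact h
    rw [hsplit, hsplit] at h'
    have hνR : ∀ i, ν i < R := by
      intro i
      simp only [hν]
      split_ifs <;> omega
    have hνN : ∑ i, ν i ≤ N := by
      rw [hN, Fintype.card_eq_sum_ones]
      apply Finset.sum_le_sum
      intro i _
      simp only [hν]
      split_ifs <;> omega
    have h1 := key ν hνR
    have h2 : ∑ i, ν i * R ^ (idx i).val < R ^ N := by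
      rw [h1]; exact Fin.is_lt _
    have h3 : ∑ i, μ i ≤ ∑ i, ν i := by
      by_contra hcon
      push Not at hcon
      have h4 : (∑ i, ν i + 1) * R ^ N ≤ (∑ i, μ i) * R ^ N := Nat.mul_le_mul_right _ hcon
      rw [add_mul, one_mul] at h4
      omega
    have hμR : ∀ i, μ i < R := by
      intro i
      have : μ i ≤ ∑ i, μ i := Finset.single_le_sum (fun _ _ => Nat.zero_le _) (Finset.mem_univ i)
      omega
    have h4 := key μ hμR
    have h5 : ∑ i, μ i * R ^ (idx i).val < R ^ N := by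
      rw [h4]; exact Fin.is_lt _
    have h6 : ∑ i, μ i * R ^ (idx i).val = ∑ i, ν i * R ^ (idx i).val := by
      have a1 := congrArg (· % R ^ N) h'
      simp only [Nat.mul_add_mod_self_right] at a1
      rwa [Nat.mod_eq_of_lt h5, Nat.mod_eq_of_lt h2] at a1
    rw [h4, h1] at h6
    have h7 := finFunctionFinEquiv.injective (Fin.ext h6)
    intro i
    have h8 := congrArg Fin.val (congrFun h7 (idx i))
    simpa using h8

end Pool.Agent.H700R2.Pcat
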