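import Pool.Agent.H700R2.PcatDefs

set_option autoImplicit false

/-!
Finiteness of the alphabet and of the rules.
-/

namespace Pool.Agent.H700R2.Pcat

/-- an injective code of the objects -/
def Ob.enc {U S : Type} {m : ℕ} : Ob U S m → Fin 11 × Option U × Option S × Option (Fin (m + 1))
  | .a i => (0, some i, none, none)
  | .b i => (1, some i, none, none)
  | .f2 => (2, none, none, none)
  | .f1 => (3, none, none, none)
  | .kp => (4, none, none, none)
  | .g => (5, none, none, none)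
  | .th => (6, none, none, none)
  | .p s j => (7, none, some s, some j)
  | .w s j => (8, none, some s, some j)
  | .trap => (9, none, none, none)
  | .o => (10, none, none, none)

instance finite_ob {U S : Type} [Finite U] [Finite S] (m : ℕ) : Finite (Ob U S m) := by
  refine Finite.of_injective (Ob.enc : Ob U S m → _) ?_
  intro x y h
  cases x <;> cases y <;> simp_all [Ob.enc]

theorem R1_finite {U S : Type} [DecidableEq U] [DecidableEq S] [Fintype U] [Finite S]
    (D : Sys U S) : {p : Ob U S D.m × Multiset (Ob U S D.m) | R1 D p.1 p.2}.Finite := by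
  set f1 : U → Ob U S D.m × Multiset (Ob U S D.m) := fun i =>
    (.a i, {.b i} + {.g} + (if i = D.x then 4 • {.b D.d} else 0)) with hf1
  set f2 : S × Fin (D.m + 1) × Fin (D.m + 1) → Ob U S D.m × Multiset (Ob U S D.m) := fun x =>
    (.p x.1 x.2.1, {.p x.1 x.2.2}) with hf2
  set f3 : S × Fin (D.m + 1) × Fin (D.m + 1) → Ob U S D.m × Multiset (Ob U S D.m) := fun x =>
    (.p x.1 x.2.1, {.w x.1 x.2.2} + emit D x.1) with hf3
  set f4 : S × Fin (D.m + 1) → Ob U S D.m × Multiset (Ob U S D.m) := fun x =>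
    (.w x.1 x.2, {.trap}) with hf4
  set f5 : S × Fin (D.m + 1) → Ob U S D.m × Multiset (Ob U S D.m) := fun x =>
    (.p x.1 x.2, {.trap}) with hf5
  have hfin : (Set.range f1 ∪ Set.range f2 ∪ Set.range f3 ∪ Set.range f4 ∪ Set.range f5 ∪
      {(.f2, {.f1}), (.f1, {.g}), (.g, {.trap}), (.th, {.trap}), (.trap, {.trap})} :
      Set (Ob U S D.m × Multiset (Ob U S D.m))).Finite := by
    refine ((((((Set.finite_range f1).union (Set.finite_range f2)).union
      (Set.finite_range f3)).union (Set.finite_range f4)).union (Set.finite_range f5)).union ?_)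
    exact Set.toFinite _
  refine hfin.subset ?_
  rintro ⟨a, v⟩ (h : R1 D a v)
  cases h with
  | a i => exact Or.inl (Or.inl (Or.inl (Or.inl (Or.inl ⟨i, rfl⟩))))
  | f2 => exact Or.inr (by simp)
  | f1 => exact Or.inr (by simp)
  | p s j j' _ _ => exact Or.inl (Or.inl (Or.inl (Or.inl (Or.inr ⟨(s, j, j'), rfl⟩))))
  | pw s j j' _ _ => exact Or.inl (Or.inl (Or.inl (Or.inr ⟨(s, j, j'), rfl⟩)))
  | tg => exact Or.inr (by simp)
  | tth => exact Or.inr (by simp)
  | tw s j => exact Or.inl (Or.inl (Or.inr ⟨(s, j), rfl⟩))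
  | tt => exact Or.inr (by simp)
  | tp s j => exact Or.inl (Or.inr ⟨(s, j), rfl⟩)

theorem R2_finite {U S : Type} [DecidableEq U] [DecidableEq S] [Fintype U] [Finite S]
    (D : Sys U S) : {p : Ob U S D.m × Multiset (Ob U S D.m) | R2 D p.1 p.2}.Finite := by
  set f1 : U → Ob U S D.m × Multiset (Ob U S D.m) := fun i =>
    (.b i, {.a i} + {.f2}) with hf1
  set f2 : U → Ob U S D.m × Multiset (Ob U S D.m) := fun i =>
    (.b i, (D.n i - 1) • {.th}) with hf2
  set f3 : S × Fin (D.m + 1) × Fin (D.m + 1) → Ob U S D.m × Multiset (Ob U S D.m) := fun x =>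
    (.w x.1 x.2.1, {.w x.1 x.2.2}) with hf3
  set f4 : S × S × Fin (D.m + 1) × Fin (D.m + 1) → Ob U S D.m × Multiset (Ob U S D.m) := fun x =>
    (.w x.1 x.2.2.1, {.p x.2.1 x.2.2.2} + 2 • {.g}) with hf4
  set f5 : S × Fin (D.m + 1) → Ob U S D.m × Multiset (Ob U S D.m) := fun x =>
    (.w x.1 x.2, 0) with hf5
  set f6 : S × Fin (D.m + 1) → Ob U S D.m × Multiset (Ob U S D.m) := fun x =>
    (.w x.1 x.2, {.trap}) with hf6
  have hfin : (Set.range f1 ∪ Set.range f2 ∪ Set.range f3 ∪ Set.range f4 ∪ Set.range f5 ∪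
      Set.range f6 ∪
      {(.kp, (D.nk - 1) • {.th}), (.g, 0), (.th, 0)} :
      Set (Ob U S D.m × Multiset (Ob U S D.m))).Finite := by
    refine (((((((Set.finite_range f1).union (Set.finite_range f2)).union
      (Set.finite_range f3)).union (Set.finite_range f4)).union (Set.finite_range f5)).union
      (Set.finite_range f6)).union ?_)
    exact Set.toFinite _
  refine hfin.subset ?_
  rintro ⟨a, v⟩ (h : R2 D a v)
  cases h with
  | b i => exact Or.inl (Or.inl (Or.inl (Or.inl (Or.inl (Or.inl ⟨i, rfl⟩)))))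
  | v i => exact Or.inl (Or.inl (Or.inl (Or.inl (Or.inl (Or.inr ⟨i, rfl⟩)))))
  | vk => exact Or.inr (by simp)
  | g => exact Or.inr (by simp)
  | th => exact Or.inr (by simp)
  | w s j j' _ _ => exact Or.inl (Or.inl (Or.inl (Or.inl (Or.inr ⟨(s, j, j'), rfl⟩))))
  | wp s s' j j' _ _ _ => exact Or.inl (Or.inl (Or.inl (Or.inr ⟨(s, s', j, j'), rfl⟩)))
  | wz s j _ _ => exact Or.inl (Or.inl (Or.inr ⟨(s, j), rfl⟩))
  | tw s j => exact Or.inl (Or.inr ⟨(s, j), rfl⟩)

end Pool.Agent.H700R2.Pcat
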