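import Pool.Agent.H700R2.PcatDefs
import Pool.Agent.H700R2.PcatPSys

set_option autoImplicit false

/-!
Two catalysts, one membrane: the P system attached to two relations of rules, and the comparison
of its semantics with the abstract one.
-/

namespace Pool.Agent.H700R2.Pcat

open Relation

namespace Link

open Classical

noncomputable section

variable {O : Type}

/-- the objects of the P system: two catalysts and the objects of `O` -/
abbrev Obj2 (O : Type) : Type := Bool ⊕ O

/-- a multiset given by the numbers of catalysts and the other objects -/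
def mk3 (n0 n1 : ℕ) (N : Multiset O) : Multiset (Obj2 O) :=
  n0 • {Sum.inl false} + n1 • {Sum.inl true} + N.map Sum.inr

theorem mk3_add (n0 n1 m0 m1 : ℕ) (N M : Multiset O) :
    mk3 n0 n1 N + mk3 m0 m1 M = mk3 (n0 + m0) (n1 + m1) (N + M) := by
  simp only [mk3, add_nsmul, Multiset.map_add]
  abel

theorem mk3_surj (M : Multiset (Obj2 O)) : ∃ n0 n1 N, M = mk3 n0 n1 N := by
  induction M using Multiset.induction_on with
  | empty => exact ⟨0, 0, 0, by simp [mk3]⟩
  | cons a M ih =>
    obtain ⟨n0, n1, N, rfl⟩ := ih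
    rw [← Multiset.singleton_add]
    rcases a with (_ | _) | a
    · refine ⟨1 + n0, n1, N, ?_⟩
      have : ({Sum.inl false} : Multiset (Obj2 O)) = mk3 1 0 0 := by simp [mk3]
      rw [this, mk3_add, zero_add, zero_add]
    · refine ⟨n0, 1 + n1, N, ?_⟩
      have : ({Sum.inl true} : Multiset (Obj2 O)) = mk3 0 1 0 := by simp [mk3]
      rw [this, mk3_add, zero_add, zero_add]
    · refine ⟨n0, n1, {a} + N, ?_⟩
      have : ({Sum.inr a} : Multiset (Obj2 O)) = mk3 0 0 {a} := by simp [mk3]
      rw [this, mk3_add, zero_add, zero_add]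

theorem count_false (n0 n1 : ℕ) (N : Multiset O) :
    (mk3 n0 n1 N).count (Sum.inl false) = n0 := by
  simp only [mk3, Multiset.count_add, Multiset.count_nsmul]
  have h : (N.map Sum.inr : Multiset (Obj2 O)).count (Sum.inl false) = 0 := by
    rw [Multiset.count_eq_zero]
    intro h
    obtain ⟨x, _, hx⟩ := Multiset.mem_map.1 h
    cases hx
  rw [h, Multiset.count_singleton_self, Multiset.count_singleton,
    if_neg (by intro h; cases h)]
  omega

theorem count_true (n0 n1 : ℕ) (N : Multiset O) :
    (mk3 n0 n1 N).count (Sum.inl true) = n1 := by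
  simp only [mk3, Multiset.count_add, Multiset.count_nsmul]
  have h : (N.map Sum.inr : Multiset (Obj2 O)).count (Sum.inl true) = 0 := by
    rw [Multiset.count_eq_zero]
    intro h
    obtain ⟨x, _, hx⟩ := Multiset.mem_map.1 h
    cases hx
  rw [h, Multiset.count_singleton_self, Multiset.count_singleton,
    if_neg (by intro h; cases h)]
  omega

theorem count_inr (n0 n1 : ℕ) (N : Multiset O) (a : O) :
    (mk3 n0 n1 N).count (Sum.inr a) = N.count a := by
  simp only [mk3, Multiset.count_add, Multiset.count_nsmul]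
  rw [Multiset.count_singleton, if_neg (by intro h; cases h), Multiset.count_singleton,
    if_neg (by intro h; cases h)]
  rw [Multiset.count_map_eq_count' _ _ Sum.inr_injective]
  omega

theorem mk3_inj {n0 n1 m0 m1 : ℕ} {N M : Multiset O} (h : mk3 n0 n1 N = mk3 m0 m1 M) :
    n0 = m0 ∧ n1 = m1 ∧ N = M := by
  refine ⟨?_, ?_, ?_⟩
  · rw [← count_false n0 n1 N, h, count_false]
  · rw [← count_true n0 n1 N, h, count_true]
  · ext a
    rw [← count_inr n0 n1 N, h, count_inr]

/-! ### The P system -/

variable (o : O) (R : Bool → O → Multiset O → Prop)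

/-- right-hand side with targets -/
def tg (v : Multiset O) : Multiset (Obj2 O × Tar) :=
  v.map fun x => (Sum.inr x, if x = o then Tar.out else Tar.here)

/-- a rule -/
def rl (i : Bool) (a : O) (v : Multiset O) : Rule (Obj2 O) := ⟨some (.inl i), .inr a, tg o v⟩

/-- the rules -/
def rls : Set (Rule (Obj2 O)) := {r | ∃ i a v, R i a v ∧ r = rl o i a v}

theorem rls_finite (hf : ∀ i, {p : O × Multiset O | R i p.1 p.2}.Finite) : (rls o R).Finite := by
  have h1 : (⋃ i : Bool, (fun p : O × Multiset O => rl o i p.1 p.2) ''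
      {p : O × Multiset O | R i p.1 p.2}).Finite :=
    Set.finite_iUnion fun i => (hf i).image _
  refine h1.subset ?_
  rintro _ ⟨i, a, v, h, rfl⟩
  exact Set.mem_iUnion.2 ⟨i, (a, v), h, rfl⟩

/-- the P system with one membrane and two catalysts -/
def psys [Finite O] (hf : ∀ i, {p : O × Multiset O | R i p.1 p.2}.Finite) (M0 : Multiset O) :
    PSystem where
  Obj := Obj2 O
  finObj := inferInstance
  Cat := Set.range Sum.inl
  Mem := Unit
  finMem := inferInstance
  skin := ()
  parent _ := none
  parent_eq_none _ := by simp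
  nested _ := ⟨1, rfl⟩
  init _ := mk3 1 1 M0
  rules _ := rls o R
  finRules _ := rls_finite o R hf
  rules_ok := by
    rintro _ r ⟨i, a, v, h, rfl⟩
    refine ⟨?_, ?_, ?_⟩
    · rintro ⟨j, hj⟩
      cases hj
    · intro c hc
      cases hc
      exact ⟨i, rfl⟩
    · rintro p hp ⟨j, hj⟩
      obtain ⟨x, hx, rfl⟩ := Multiset.mem_map.1 hp
      cases hj
  iout := none
  iout_elementary _ h := by cases h

variable [Finite O] (hf : ∀ i, {p : O × Multiset O | R i p.1 p.2}.Finite) (M0 : Multiset O)

theorem made_here (i : Bool) (a : O) (v : Multiset O) :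
    (rl o i a v).made .here = mk3 0 0 (v.filter (· ≠ o)) := by
  unfold Rule.made
  rw [rl, tg, Multiset.filter_map, Multiset.map_map]
  simp only [mk3, zero_nsmul, zero_add]
  simp only [Function.comp_def]
  congr 1
  refine Multiset.filter_congr fun x _ => ?_
  by_cases hx : x = o <;> simp [hx]

theorem made_out (i : Bool) (a : O) (v : Multiset O) :
    (rl o i a v).made .out = mk3 0 0 (v.filter (· = o)) := by
  unfold Rule.made
  rw [rl, tg, Multiset.filter_map, Multiset.map_map]
  simp only [mk3, zero_nsmul, zero_add]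
  simp only [Function.comp_def]
  congr 1
  refine Multiset.filter_congr fun x _ => ?_
  by_cases hx : x = o <;> simp [hx]

theorem made_inn (i : Bool) (a : O) (v : Multiset O) :
    (rl o i a v).made .inn = 0 := by
  unfold Rule.made
  rw [rl, tg, Multiset.filter_map, Multiset.map_map]
  rw [Multiset.filter_eq_nil.2, Multiset.map_zero]
  intro x _
  simp only [Function.comp_def]
  by_cases hx : x = o <;> simp [hx]

theorem no_inn {r : Rule (Obj2 O)} (hr : r ∈ rls o R) : ¬ ∃ p ∈ r.rhs, p.2 = Tar.inn := by
  rintro ⟨p, hp, hpi⟩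
  obtain ⟨i, a, v, _, rfl⟩ := hr
  obtain ⟨x, _, rfl⟩ := Multiset.mem_map.1 hp
  simp only at hpi
  split_ifs at hpi

/-- one step of a system with one region -/
def Step1 (reg env reg' env' : Multiset (Obj2 O)) : Prop :=
  ∃ (U : Multiset (Rule (Obj2 O))) (rest : Multiset (Obj2 O)),
    (∀ r ∈ U, r ∈ rls o R) ∧ reg = left U + rest ∧ (∀ r ∈ rls o R, ¬ r.left ≤ rest) ∧
    0 = made U Tar.inn ∧ reg' = rest + cats U + made U Tar.here ∧ env' = env + made U Tar.out

/-- a configuration -/
def mkc (A B : Multiset (Obj2 O)) : (psys o R hf M0).Config := ⟨fun _ => A, B⟩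

theorem step1_iff (A B A' B' : Multiset (Obj2 O)) :
    (psys o R hf M0).Step (mkc o R hf M0 A B) (mkc o R hf M0 A' B') ↔ Step1 o R A B A' B' := by
  constructor
  · rintro ⟨U, rest, down, h1, h2, h3, h4, h5, h6, h7⟩
    refine ⟨U (), rest (), fun r hr => (h1 () r hr).1, h2 (), ?_, ?_, ?_, h7⟩
    · intro r hr
      exact h3 () r ⟨hr, fun h => absurd h (no_inn o R hr)⟩
    · have h8 := h5 ()
      rw [Finset.sum_eq_zero (fun x _ => if_neg (by simp [psys]))] at h8
      exact h8
    · have h8 := h6 ()
      rw [Finset.sum_eq_zero (fun x _ => if_neg (by simp [psys]))] at h8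
      have h9 : down () = 0 := h4
      rw [h9, add_zero, add_zero] at h8
      exact h8
  · rintro ⟨U, rest, h1, h2, h3, h4, h5, h6⟩
    refine ⟨fun _ => U, fun _ => rest, fun _ => 0, ?_, fun _ => h2, ?_, rfl, ?_, ?_, h6⟩
    · intro _ r hr
      exact ⟨h1 r hr, fun h => absurd h (no_inn o R (h1 r hr))⟩
    · intro _ r hr
      exact h3 r hr.1
    · intro _
      rw [Finset.sum_eq_zero (fun x _ => if_neg (by simp [psys]))]
      exact h4
    · intro _
      rw [Finset.sum_eq_zero (fun x _ => if_neg (by simp [psys]))]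
      have h9 : (mkc o R hf M0 A' B').reg () = rest + cats U + made U Tar.here := h5
      simp only [add_zero]
      exact h9

/-- is a rule used? -/
def nn (x : Option (O × Multiset O)) : ℕ := match x with
  | none => 0
  | some _ => 1

/-- the rules of a choice -/
def uu (i : Bool) (x : Option (O × Multiset O)) : Multiset (Rule (Obj2 O)) := match x with
  | none => 0
  | some (a, v) => {rl o i a v}

omit [Finite O] in
theorem uu_mem (i : Bool) (x : Option (O × Multiset O)) (hx : Legal (R i) x) :
    ∀ r ∈ uu o i x, r ∈ rls o R := by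
  rcases x with _ | ⟨a, v⟩
  · intro r hr
    exact absurd hr (Multiset.notMem_zero r)
  · intro r hr
    rw [uu, Multiset.mem_singleton] at hr
    exact ⟨i, a, v, hx a v rfl, hr⟩

omit [Finite O] in
theorem left_false (x : Option (O × Multiset O)) :
    left (uu o false x) = mk3 (nn x) 0 (lhs x) := by
  rcases x with _ | ⟨a, v⟩
  · simp [left, uu, nn, lhs, mk3]
  · simp [left, uu, nn, lhs, mk3, rl, Rule.left, Rule.catalyst]

omit [Finite O] in
theorem left_true (x : Option (O × Multiset O)) :
    left (uu o true x) = mk3 0 (nn x) (lhs x) := by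
  rcases x with _ | ⟨a, v⟩
  · simp [left, uu, nn, lhs, mk3]
  · simp [left, uu, nn, lhs, mk3, rl, Rule.left, Rule.catalyst]

omit [Finite O] in
theorem cats_false (x : Option (O × Multiset O)) :
    cats (uu o false x) = mk3 (nn x) 0 0 := by
  rcases x with _ | ⟨a, v⟩
  · simp [cats, uu, nn, mk3]
  · simp [cats, uu, nn, mk3, rl, Rule.catalyst]

omit [Finite O] in
theorem cats_true (x : Option (O × Multiset O)) :
    cats (uu o true x) = mk3 0 (nn x) 0 := by
  rcases x with _ | ⟨a, v⟩
  · simp [cats, uu, nn, mk3]
  · simp [cats, uu, nn, mk3, rl, Rule.catalyst]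

omit [Finite O] in
theorem left_add (U V : Multiset (Rule (Obj2 O))) : left (U + V) = left U + left V := by
  simp [left]

omit [Finite O] in
theorem cats_add (U V : Multiset (Rule (Obj2 O))) : cats (U + V) = cats U + cats V := by
  simp [cats]

omit [Finite O] in
theorem made_add (U V : Multiset (Rule (Obj2 O))) (t : Tar) :
    made (U + V) t = made U t + made V t := by
  simp [made]

theorem uu_here (i : Bool) (x : Option (O × Multiset O)) :
    made (uu o i x) .here = mk3 0 0 ((rhs x).filter (· ≠ o)) := by
  rcases x with _ | ⟨a, v⟩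
  · simp [made, uu, rhs, mk3]
  · simp only [made, uu, Multiset.map_singleton, Multiset.sum_singleton, rhs]
    exact made_here o i a v

theorem uu_out (i : Bool) (x : Option (O × Multiset O)) :
    made (uu o i x) .out = mk3 0 0 ((rhs x).filter (· = o)) := by
  rcases x with _ | ⟨a, v⟩
  · simp [made, uu, rhs, mk3]
  · simp only [made, uu, Multiset.map_singleton, Multiset.sum_singleton, rhs]
    exact made_out o i a v

theorem uu_inn (i : Bool) (x : Option (O × Multiset O)) :
    made (uu o i x) .inn = 0 := by
  rcases x with _ | ⟨a, v⟩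
  · simp [made, uu]
  · simp only [made, uu, Multiset.map_singleton, Multiset.sum_singleton]
    exact made_inn o i a v

/-- the contents of the region in the configuration represented by `A` -/
def rg (A : Multiset O) : Multiset (Obj2 O) := mk3 1 1 (A.filter (· ≠ o))

/-- the environment in the configuration represented by `A` -/
def en (A : Multiset O) : Multiset (Obj2 O) := mk3 0 0 (A.filter (· = o))

omit [Finite O] in
theorem left_rl_false_le {a : O} {v : Multiset O} {p q : ℕ} {N : Multiset O} :
    (rl o false a v).left ≤ mk3 p q N ↔ 1 ≤ p ∧ a ∈ N := by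
  have h1 : (rl o false a v).left = mk3 1 0 {a} := by
    simp [rl, Rule.left, Rule.catalyst, mk3]
  rw [h1]
  constructor
  · intro h
    constructor
    · have := Multiset.count_le_of_le (Sum.inl false) h
      rwa [count_false, count_false] at this
    · have := Multiset.count_le_of_le (Sum.inr a) h
      rw [count_inr, count_inr, Multiset.count_singleton_self] at this
      exact Multiset.one_le_count_iff_mem.1 this
  · rintro ⟨h2, h3⟩
    obtain ⟨N', rfl⟩ := Multiset.exists_cons_of_mem h3
    obtain ⟨p', rfl⟩ := Nat.exists_eq_add_of_le h2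
    have : mk3 (1 + p') q (a ::ₘ N') = mk3 1 0 {a} + mk3 p' q N' := by
      rw [mk3_add, zero_add, Multiset.singleton_add]
    rw [this]
    exact Multiset.le_add_right _ _

omit [Finite O] in
theorem left_rl_true_le {a : O} {v : Multiset O} {p q : ℕ} {N : Multiset O} :
    (rl o true a v).left ≤ mk3 p q N ↔ 1 ≤ q ∧ a ∈ N := by
  have h1 : (rl o true a v).left = mk3 0 1 {a} := by
    simp [rl, Rule.left, Rule.catalyst, mk3]
  rw [h1]
  constructor
  · intro h
    constructor
    · have := Multiset.count_le_of_le (Sum.inl true) h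
      rwa [count_true, count_true] at this
    · have := Multiset.count_le_of_le (Sum.inr a) h
      rw [count_inr, count_inr, Multiset.count_singleton_self] at this
      exact Multiset.one_le_count_iff_mem.1 this
  · rintro ⟨h2, h3⟩
    obtain ⟨N', rfl⟩ := Multiset.exists_cons_of_mem h3
    obtain ⟨q', rfl⟩ := Nat.exists_eq_add_of_le h2
    have : mk3 p (1 + q') (a ::ₘ N') = mk3 0 1 {a} + mk3 p q' N' := by
      rw [mk3_add, zero_add, Multiset.singleton_add]
    rw [this]
    exact Multiset.le_add_right _ _

omit [Finite O] in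
theorem lhs_filter {i : Bool} (ho : ∀ i v, ¬ R i o v) {x : Option (O × Multiset O)}
    (hx : Legal (R i) x) :
    (lhs x).filter (· ≠ o) = lhs x ∧ (lhs x).filter (· = o) = 0 := by
  rcases x with _ | ⟨a, v⟩
  · exact ⟨rfl, rfl⟩
  · have hao : a ≠ o := by
      rintro rfl
      exact ho i v (hx a v rfl)
    simp only [lhs]
    constructor
    · rw [Multiset.filter_eq_self]
      intro b hb
      rw [Multiset.mem_singleton] at hb
      rwa [hb]
    · rw [Multiset.filter_eq_nil]
      intro b hb
      rw [Multiset.mem_singleton] at hb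
      rwa [hb]

theorem step_bwd (ho : ∀ i v, ¬ R i o v) {A A' : Multiset O}
    (h : Step (R false) (R true) A A') : Step1 o R (rg o A) (en o A) (rg o A') (en o A') := by
  obtain ⟨x, y, rest, h1, h2, rfl, h4, h5, rfl⟩ := h
  obtain ⟨l1, l2⟩ := lhs_filter o R ho h1
  obtain ⟨l3, l4⟩ := lhs_filter o R ho h2
  have hnx : nn x ≤ 1 := by rcases x with _ | x <;> simp [nn]
  have hny : nn y ≤ 1 := by rcases y with _ | y <;> simp [nn]
  refine ⟨uu o false x + uu o true y, mk3 (1 - nn x) (1 - nn y) (rest.filter (· ≠ o)),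
    ?_, ?_, ?_, ?_, ?_, ?_⟩
  · intro r hr
    rcases Multiset.mem_add.1 hr with hr | hr
    · exact uu_mem o R false x h1 r hr
    · exact uu_mem o R true y h2 r hr
  · rw [left_add, left_false, left_true, mk3_add, mk3_add, rg]
    congr 1
    · omega
    · omega
    · rw [Multiset.filter_add, Multiset.filter_add, l1, l3]
  · rintro _ ⟨i, a, v, hr, rfl⟩ hle
    cases i with
    | false =>
      rw [left_rl_false_le] at hle
      obtain ⟨h6, h7⟩ := hle
      have hx : x = none := by
        rcases x with _ | x
        · rfl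
        · simp [nn] at h6
      exact h4 hx a (Multiset.mem_of_mem_filter h7) v hr
    | true =>
      rw [left_rl_true_le] at hle
      obtain ⟨h6, h7⟩ := hle
      have hy : y = none := by
        rcases y with _ | y
        · rfl
        · simp [nn] at h6
      exact h5 hy a (Multiset.mem_of_mem_filter h7) v hr
  · rw [made_add, uu_inn, uu_inn, add_zero]
  · rw [cats_add, cats_false, cats_true, made_add, uu_here, uu_here]
    simp only [mk3_add]
    rw [rg]
    congr 1
    · omega
    · omega
    · simp only [Multiset.filter_add]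
      abel
  · rw [made_add, uu_out, uu_out, en, en]
    simp only [mk3_add, Multiset.filter_add]
    rw [l2, l4]
    congr 1
    abel

omit [Finite O] in
theorem exists_choice (i : Bool) (U : Multiset (Rule (Obj2 O)))
    (hU : ∀ r ∈ U, ∃ a v, R i a v ∧ r = rl o i a v) (hc : Multiset.card U ≤ 1) :
    ∃ x, Legal (R i) x ∧ U = uu o i x := by
  rcases Nat.eq_zero_or_pos (Multiset.card U) with h | h
  · rw [Multiset.card_eq_zero] at h
    refine ⟨none, ?_, h⟩
    intro a v h
    cases h
  · obtain ⟨r, rfl⟩ := Multiset.card_eq_one.1 (show Multiset.card U = 1 by omega)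
    obtain ⟨a, v, h1, rfl⟩ := hU r (Multiset.mem_singleton_self _)
    refine ⟨some (a, v), ?_, rfl⟩
    intro a' v' h
    cases h
    exact h1

omit [Finite O] in
theorem left_eq (i : Bool) (U : Multiset (Rule (Obj2 O)))
    (hU : ∀ r ∈ U, ∃ a v, R i a v ∧ r = rl o i a v) :
    (left U).count (Sum.inl i) = Multiset.card U := by
  induction U using Multiset.induction_on with
  | empty => simp [left]
  | cons r U ih =>
    have h1 : left (r ::ₘ U) = r.left + left U := by simp [left]
    obtain ⟨a, v, _, rfl⟩ := hU r (Multiset.mem_cons_self _ _)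
    rw [h1, Multiset.count_add, ih fun r hr => hU r (Multiset.mem_cons_of_mem hr),
      Multiset.card_cons]
    have h2 : (rl o i a v).left.count (Sum.inl i) = 1 := by
      simp only [rl, Rule.left, Rule.catalyst]
      rw [Multiset.count_add, Multiset.count_singleton_self, Multiset.count_singleton,
        if_neg (by intro h; cases h)]
    rw [h2, add_comm]

theorem step_fwd (ho : ∀ i v, ¬ R i o v) {A : Multiset O} {B' E' : Multiset (Obj2 O)}
    (h : Step1 o R (rg o A) (en o A) B' E') :
    ∃ A', Step (R false) (R true) A A' ∧ B' = rg o A' ∧ E' = en o A' := by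
  obtain ⟨U, rest, h1, h2, h3, _, h5, h6⟩ := h
  -- split the rules
  obtain ⟨U1, U2, rfl, hu1, hu2⟩ : ∃ U1 U2, U = U1 + U2 ∧
      (∀ r ∈ U1, ∃ a v, R false a v ∧ r = rl o false a v) ∧
      (∀ r ∈ U2, ∃ a v, R true a v ∧ r = rl o true a v) := by
    refine ⟨U.filter (fun r => ∃ a v, R false a v ∧ r = rl o false a v),
      U.filter (fun r => ¬ ∃ a v, R false a v ∧ r = rl o false a v),
      (Multiset.filter_add_not _ _).symm,
      fun r hr => (Multiset.mem_filter.1 hr).2, fun r hr => ?_⟩
    obtain ⟨hr1, hr2⟩ := Multiset.mem_filter.1 hr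
    obtain ⟨i, a, v, h, rfl⟩ := h1 r hr1
    cases i with
    | false => exact absurd ⟨a, v, h, rfl⟩ hr2
    | true => exact ⟨a, v, h, rfl⟩
  have hc1 : Multiset.card U1 ≤ 1 := by
    have := congrArg (Multiset.count (Sum.inl false)) h2
    rw [rg, count_false, left_add, Multiset.count_add, Multiset.count_add,
      left_eq o R false U1 hu1] at this
    omega
  have hc2 : Multiset.card U2 ≤ 1 := by
    have := congrArg (Multiset.count (Sum.inl true)) h2
    rw [rg, count_true, left_add, Multiset.count_add, Multiset.count_add,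
      left_eq o R true U2 hu2] at this
    omega
  obtain ⟨x, hx, rfl⟩ := exists_choice o R false U1 hu1 hc1
  obtain ⟨y, hy, rfl⟩ := exists_choice o R true U2 hu2 hc2
  obtain ⟨p, q, N, rfl⟩ := mk3_surj rest
  rw [rg, left_add, left_false, left_true, mk3_add, mk3_add] at h2
  obtain ⟨e1, e2, e3⟩ := mk3_inj h2
  have hA : A = A.filter (· ≠ o) + A.filter (· = o) := by
    rw [add_comm]
    exact (Multiset.filter_add_not _ _).symm
  have hN : N.filter (· ≠ o) = N := by
    rw [Multiset.filter_eq_self]
    intro a ha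
    have h7 : a ∈ A.filter (· ≠ o) := by
      rw [e3]
      exact Multiset.mem_add.2 (Or.inr ha)
    exact (Multiset.mem_filter.1 h7).2
  have hN' : N.filter (· = o) = 0 := by
    rw [Multiset.filter_eq_nil]
    intro a ha
    have h7 : a ∈ A.filter (· ≠ o) := by
      rw [e3]
      exact Multiset.mem_add.2 (Or.inr ha)
    exact (Multiset.mem_filter.1 h7).2
  have hoo : (A.filter (· = o)).filter (· ≠ o) = 0 := by
    rw [Multiset.filter_eq_nil]
    intro a ha
    have := (Multiset.mem_filter.1 ha).2
    simpa using this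
  have hoo' : (A.filter (· = o)).filter (· = o) = A.filter (· = o) := by
    rw [Multiset.filter_eq_self]
    intro a ha
    exact (Multiset.mem_filter.1 ha).2
  refine ⟨N + A.filter (· = o) + rhs x + rhs y, ⟨x, y, N + A.filter (· = o), hx, hy, ?_, ?_, ?_,
    rfl⟩, ?_, ?_⟩
  · rw [← add_assoc, zero_add] at *
    conv_lhs => rw [hA, e3]
  · intro hxn a ha v hr
    have hp : 1 ≤ p := by
      rw [hxn] at e1
      simp only [nn] at e1
      omega
    rcases Multiset.mem_add.1 ha with ha | ha
    · exact h3 (rl o false a v) ⟨false, a, v, hr, rfl⟩ (left_rl_false_le o |>.2 ⟨hp, ha⟩)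
    · have := (Multiset.mem_filter.1 ha).2
      subst this
      exact ho _ _ hr
  · intro hyn a ha v hr
    have hq : 1 ≤ q := by
      rw [hyn] at e2
      simp only [nn] at e2
      omega
    rcases Multiset.mem_add.1 ha with ha | ha
    · exact h3 (rl o true a v) ⟨true, a, v, hr, rfl⟩ (left_rl_true_le o |>.2 ⟨hq, ha⟩)
    · have := (Multiset.mem_filter.1 ha).2
      subst this
      exact ho _ _ hr
  · rw [h5, cats_add, cats_false, cats_true, made_add, uu_here, uu_here, rg]
    simp only [mk3_add, Multiset.filter_add, hN, hoo]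
    congr 1
    · omega
    · omega
    · abel
  · rw [h6, made_add, uu_out, uu_out, en, en]
    simp only [mk3_add, Multiset.filter_add, hN', hoo']
    congr 1
    abel

theorem halting_iff (ho : ∀ i v, ¬ R i o v) {A : Multiset O} :
    (psys o R hf M0).Halting (mkc o R hf M0 (rg o A) (en o A)) ↔
      Halt (R false) (R true) A := by
  constructor
  · intro h a ha v
    constructor
    · intro hr
      have hao : a ≠ o := by
        rintro rfl
        exact ho _ _ hr
      have hmem : (rl o false a v) ∈ rls o R := ⟨false, a, v, hr, rfl⟩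
      refine h () _ ⟨hmem, fun h => absurd h (no_inn o R hmem)⟩ ?_
      show (rl o false a v).left ≤ rg o A
      rw [rg, left_rl_false_le]
      exact ⟨le_refl 1, Multiset.mem_filter.2 ⟨ha, hao⟩⟩
    · intro hr
      have hao : a ≠ o := by
        rintro rfl
        exact ho _ _ hr
      have hmem : (rl o true a v) ∈ rls o R := ⟨true, a, v, hr, rfl⟩
      refine h () _ ⟨hmem, fun h => absurd h (no_inn o R hmem)⟩ ?_
      show (rl o true a v).left ≤ rg o A
      rw [rg, left_rl_true_le]
      exact ⟨le_refl 1, Multiset.mem_filter.2 ⟨ha, hao⟩⟩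
  · rintro h _ r ⟨⟨i, a, v, hr, rfl⟩, _⟩ hle
    have hle' : (rl o i a v).left ≤ rg o A := hle
    rw [rg] at hle'
    cases i with
    | false =>
      rw [left_rl_false_le] at hle'
      exact (h a (Multiset.mem_of_mem_filter hle'.2) v).1 hr
    | true =>
      rw [left_rl_true_le] at hle'
      exact (h a (Multiset.mem_of_mem_filter hle'.2) v).2 hr

theorem value_eq (A : Multiset O) :
    (psys o R hf M0).value (mkc o R hf M0 (rg o A) (en o A)) = A.count o := by
  rw [Multiset.count_eq_card_filter_eq]
  show Multiset.card (en o A) = _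
  rw [en, mk3]
  simp only [zero_nsmul, zero_add, Multiset.card_map]
  congr 1
  exact Multiset.filter_congr fun x _ => eq_comm

theorem path_run (ho : ∀ i v, ¬ R i o v) {Γ H : (psys o R hf M0).Config}
    (h : Relation.ReflTransGen (psys o R hf M0).Step Γ H)
    (hH : (psys o R hf M0).Halting H) :
    ∀ A, Γ = mkc o R hf M0 (rg o A) (en o A) → ∃ B,
      Relation.ReflTransGen (Step (R false) (R true)) A B ∧ Halt (R false) (R true) B ∧
      B.count o = (psys o R hf M0).value H := by
  induction h using Relation.ReflTransGen.head_induction_on with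
  | refl =>
    rintro A rfl
    exact ⟨A, .refl, (halting_iff o R hf M0 ho).1 hH, (value_eq o R hf M0 A).symm⟩
  | @head Γ c h1 _ ih =>
    rintro A rfl
    have eta : c = mkc o R hf M0 (c.reg ()) c.env := rfl
    rw [eta] at h1 ih
    obtain ⟨A', h2, h4, h5⟩ := step_fwd o R ho ((step1_iff o R hf M0 _ _ _ _).1 h1)
    obtain ⟨B, h6, h7, h8⟩ := ih A' (by rw [← h4, ← h5])
    exact ⟨B, .head h2 h6, h7, h8⟩

theorem run_path (ho : ∀ i v, ¬ R i o v) {A B : Multiset O}
    (h : Relation.ReflTransGen (Step (R false) (R true)) A B) :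
    Relation.ReflTransGen (psys o R hf M0).Step (mkc o R hf M0 (rg o A) (en o A))
      (mkc o R hf M0 (rg o B) (en o B)) := by
  induction h with
  | refl => exact .refl
  | tail _ h ih => exact ih.tail ((step1_iff o R hf M0 _ _ _ _).2 (step_bwd o R ho h))

theorem start_eq (h0 : o ∉ M0) :
    (psys o R hf M0).start = mkc o R hf M0 (rg o M0) (en o M0) := by
  have e1 : M0.filter (fun x : O => x ≠ o) = M0 :=
    Multiset.filter_eq_self.2 fun a ha => by rintro rfl; exact h0 ha
  have e2 : M0.filter (fun x : O => x = o) = 0 :=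
    Multiset.filter_eq_nil.2 fun a ha => by rintro rfl; exact h0 ha
  rw [rg, en, e1, e2]
  have e3 : (mk3 0 0 0 : Multiset (Obj2 O)) = 0 := by simp [mk3]
  rw [e3]
  rfl

theorem psys_N (ho : ∀ i v, ¬ R i o v) (h0 : o ∉ M0) :
    (psys o R hf M0).N = Res (R false) (R true) M0 o := by
  ext n
  constructor
  · rintro ⟨H, h3, h4, rfl⟩
    obtain ⟨B, h5, h6, h7⟩ := path_run o R hf M0 ho h3 h4 M0 (start_eq o R hf M0 h0)
    exact ⟨B, h5, h6, h7⟩
  · rintro ⟨B, h3, h4, h5⟩
    refine ⟨mkc o R hf M0 (rg o B) (en o B), ?_, (halting_iff o R hf M0 ho).2 h4, ?_⟩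
    · rw [start_eq o R hf M0 h0]
      exact run_path o R hf M0 ho h3
    · rw [value_eq]
      exact h5

end

end Link

open Classical in
theorem link {O : Type} [Finite O] (o : O) (R1 R2 : O → Multiset O → Prop)
    (hf1 : {p : O × Multiset O | R1 p.1 p.2}.Finite)
    (hf2 : {p : O × Multiset O | R2 p.1 p.2}.Finite)
    (ho1 : ∀ v, ¬ R1 o v) (ho2 : ∀ v, ¬ R2 o v) (M0 : Multiset O) (h0 : o ∉ M0) :
    ∃ P : PSystem, P.PurelyCatalytic ∧ P.numCat = 2 ∧ P.Cat.ncard = 2 ∧ P.degree = 1 ∧
      P.N = Res R1 R2 M0 o := by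
  set R : Bool → O → Multiset O → Prop := fun i => if i then R2 else R1 with hR
  have hf : ∀ i, {p : O × Multiset O | R i p.1 p.2}.Finite := by
    intro i
    cases i with
    | false => simpa [hR] using hf1
    | true => simpa [hR] using hf2
  have ho : ∀ i v, ¬ R i o v := by
    intro i v
    cases i with
    | false => simpa [hR] using ho1 v
    | true => simpa [hR] using ho2 v
  refine ⟨Link.psys o R hf M0, ?_, ?_, ?_, ?_, ?_⟩
  · rintro _ r ⟨i, a, v, _, rfl⟩
    exact ⟨_, rfl⟩
  · have h3 : (Link.psys o R hf M0).numCat = ∑ _h : Unit, @Multiset.countP (Bool ⊕ O)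
        (· ∈ Set.range Sum.inl) (fun _ => Classical.propDecidable _) (Link.mk3 1 1 M0) := rfl
    rw [h3, Fintype.sum_unique, Link.mk3]
    simp only [one_nsmul, Multiset.countP_add]
    have h4 : Multiset.countP (fun x : Bool ⊕ O => x ∈ Set.range Sum.inl) (M0.map Sum.inr) = 0 := by
      rw [Multiset.countP_eq_zero]
      rintro a ha ⟨j, rfl⟩
      obtain ⟨x, _, hx⟩ := Multiset.mem_map.1 ha
      cases hx
    have h5 : ∀ i : Bool, Multiset.countP (fun x : Bool ⊕ O => x ∈ Set.range Sum.inl)
        {Sum.inl i} = 1 := by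
      intro i
      rw [← Multiset.cons_zero, Multiset.countP_cons_of_pos _ ⟨i, rfl⟩]
      simp
    rw [h4, h5, h5]
  · show (Set.range (Sum.inl : Bool → Bool ⊕ O)).ncard = 2
    rw [← Set.image_univ, Set.ncard_image_of_injective _ Sum.inl_injective, Set.ncard_univ]
    simp
  · show Fintype.card Unit = 1
    simp
  · rw [Link.psys_N o R hf M0 ho h0]
    simp [hR]

end Pool.Agent.H700R2.Pcat
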