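import Pool.Agent.H634R2.GraphDefs

/-!
# The unweighted red-blue `s`-`t` cut problem in undirected graphs
-/

namespace Pool.Agent.NPC.H634R2

/-- An instance of the unweighted red-blue `s`-`t` cut problem: the list of vertices, the lists of
red and of blue edges, the vertices `s` and `t`, and the two bounds. -/
structure RBInst where
  verts : List ℕ
  red : List (ℕ × ℕ)
  blue : List (ℕ × ℕ)
  s : ℕ
  t : ℕ
  r : ℕ
  b : ℕ

/-- The encoding of instances. -/
instance : TEnc RBInst :=
  ⟨fun I => toT (I.verts, I.red, I.blue, I.s, I.t, I.r, I.b), fun I J h => by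
    have h1 := TEnc.inj h
    cases I; cases J
    simpa using h1⟩

/-- The edge `e` has exactly one end in `X`. -/
def crosses (X : Finset ℕ) (e : ℕ × ℕ) : Bool := decide (e.1 ∈ X) ^^ decide (e.2 ∈ X)

/-- The data describe a simple graph, each edge with one colour, and two distinct vertices. -/
def RBInst.Valid (I : RBInst) : Prop :=
  IsGraph I.verts (I.red ++ I.blue) ∧ I.s ∈ I.verts ∧ I.t ∈ I.verts ∧ I.s ≠ I.t

/-- The unweighted red-blue `s`-`t` cut problem in undirected graphs: is there an `s`-`t` cut with
at most `r` red edges and at most `b` blue edges? -/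
def RBCut (I : RBInst) : Prop :=
  I.Valid ∧ ∃ X : Finset ℕ, (∀ x ∈ X, x ∈ I.verts) ∧ I.s ∈ X ∧ I.t ∉ X ∧
    I.red.countP (crosses X) ≤ I.r ∧ I.blue.countP (crosses X) ≤ I.b

end Pool.Agent.NPC.H634R2
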