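import Pool.Agent.H634R2.Clique
import Pool.Agent.H634R2.RedBlueDefs

/-!
# The unweighted red-blue `s`-`t` cut problem in undirected graphs: hardness
-/

namespace Pool.Agent.NPC.H634R2

/-- An instance without solution. -/
def noInst : RBInst := ⟨[0, 1], [(0, 1)], [], 0, 1, 0, 0⟩

/-- The red edges associated to an edge with its number. -/
def redOf (p : (ℕ × ℕ) × ℕ) : List (ℕ × ℕ) :=
  [(0, 2 * p.2 + 2), (2 * p.2 + 2, 2 * p.1.1 + 3), (2 * p.2 + 2, 2 * p.1.2 + 3)]

/-- The main part of the reduction from the clique problem. -/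
def mainInst (V : List ℕ) (E : List (ℕ × ℕ)) (k : ℕ) : RBInst where
  verts := 0 :: 1 :: (V.map (fun v => 2 * v + 3) ++ E.zipIdx.map (fun p => 2 * p.2 + 2))
  red := E.zipIdx.flatMap redOf
  blue := V.map (fun v => (2 * v + 3, 1))
  s := 0
  t := 1
  r := E.length - k * (k - 1) / 2
  b := k

/-- The reduction from the clique problem. -/
def toRB (I : (List ℕ × List (ℕ × ℕ)) × ℕ) : RBInst :=
  if I.2 * (I.2 - 1) / 2 ≤ I.1.2.length then mainInst I.1.1 I.1.2 I.2 else noInst

/-! ### Validity -/

theorem nodup_zipIdx (E : List (ℕ × ℕ)) : (E.zipIdx.map Prod.snd).Nodup := by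
  rw [List.zipIdx_map_snd]
  exact List.nodup_range' _

theorem valid_mainInst {V : List ℕ} {E : List (ℕ × ℕ)} (h : IsGraph V E) (k : ℕ) :
    (mainInst V E k).Valid := by
  have hE : ∀ p ∈ E.zipIdx, p.1 ∈ E := by
    intro p hp
    obtain ⟨e, i⟩ := p
    rw [List.mem_zipIdx_iff_getElem?] at hp
    exact List.mem_of_getElem? hp
  have hidx : ∀ p ∈ E.zipIdx, ∀ q ∈ E.zipIdx, p.2 = q.2 → p = q := by
    rintro ⟨e, i⟩ hp ⟨f, j⟩ hq hij
    rw [List.mem_zipIdx_iff_getElem?] at hp hq
    simp only at hp hq hij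
    subst hij
    rw [hp] at hq
    simp at hq
    simp [hq]
  refine ⟨⟨?_, ?_, ?_⟩, ?_, ?_, ?_⟩
  · unfold mainInst
    simp only
    rw [List.nodup_cons, List.nodup_cons]
    refine ⟨?_, ?_, ?_⟩
    · simp
    · simp
    · rw [List.nodup_append]
      refine ⟨h.1.map (fun a b hab => by simpa using hab), ?_, ?_⟩
      · have := (nodup_zipIdx E).map (f := fun n => 2 * n + 2) (fun a b hab => by simpa using hab)
        rwa [List.map_map] at this
      · intro a ha b hb hab
        simp only [List.mem_map] at ha hb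
        obtain ⟨v, _, rfl⟩ := ha
        obtain ⟨p, _, rfl⟩ := hb
        omega
  · intro e he
    unfold mainInst at he ⊢
    simp only [List.mem_append, List.mem_flatMap, List.mem_map] at he
    simp only [List.mem_cons, List.mem_append, List.mem_map]
    rcases he with ⟨p, hp, he⟩ | ⟨v, hv, rfl⟩
    · have h1 := h.2.1 p.1 (hE p hp)
      simp only [redOf, List.mem_cons, List.not_mem_nil, or_false] at he
      rcases he with rfl | rfl | rfl
      · exact ⟨Or.inl rfl, Or.inr (Or.inr (Or.inr ⟨p, hp, rfl⟩)), by simp⟩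
      · exact ⟨Or.inr (Or.inr (Or.inr ⟨p, hp, rfl⟩)), Or.inr (Or.inr (Or.inl ⟨_, h1.1, rfl⟩)),
          by simp; omega⟩
      · exact ⟨Or.inr (Or.inr (Or.inr ⟨p, hp, rfl⟩)), Or.inr (Or.inr (Or.inl ⟨_, h1.2.1, rfl⟩)),
          by simp; omega⟩
    · exact ⟨Or.inr (Or.inr (Or.inl ⟨v, hv, rfl⟩)), Or.inr (Or.inl rfl), by simp⟩
  · unfold mainInst
    simp only
    rw [List.map_append, List.nodup_append]
    refine ⟨?_, ?_, ?_⟩
    · rw [List.map_flatMap, List.nodup_flatMap]
      constructor
      · intro p hp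
        have h1 := h.2.1 p.1 (hE p hp)
        simp only [redOf, List.map_cons, List.map_nil, List.nodup_cons, List.mem_cons,
          List.not_mem_nil, or_false, Sym2.eq_iff, not_or]
        refine ⟨⟨by omega, by omega⟩, by omega, by simp⟩
      · have h2 := nodup_zipIdx E
        rw [List.nodup_iff_pairwise_ne, List.pairwise_map] at h2
        refine h2.imp ?_
        intro p q hpq x hx hy
        simp only [redOf, List.map_cons, List.map_nil, List.mem_cons, List.not_mem_nil,
          or_false] at hx hy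
        rcases hx with rfl | rfl | rfl <;> rcases hy with hy | hy | hy <;>
          simp only [Sym2.eq_iff] at hy <;> omega
    · rw [List.map_map]
      exact h.1.map (fun a b hab => by simpa [Sym2.eq_iff] using hab)
    · intro x hx y hy hxy
      subst hxy
      simp only [List.mem_map, List.mem_flatMap] at hx hy
      obtain ⟨e, ⟨p, hp, he⟩, rfl⟩ := hx
      obtain ⟨e', ⟨v, hv, rfl⟩, hy⟩ := hy
      simp only [redOf, List.mem_cons, List.not_mem_nil, or_false] at he
      rcases he with rfl | rfl | rfl <;> simp only [Sym2.eq_iff] at hy <;> omega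
  · simp [mainInst]
  · simp [mainInst]
  · simp [mainInst]

/-! ### Correctness -/

/-- Both ends of the edge are (names of) vertices in `X`. -/
def both (X : Finset ℕ) (p : (ℕ × ℕ) × ℕ) : Bool :=
  decide (2 * p.1.1 + 3 ∈ X) && decide (2 * p.1.2 + 3 ∈ X)

theorem red_ge {X : Finset ℕ} (h0 : 0 ∈ X) (l : List ((ℕ × ℕ) × ℕ)) :
    l.length ≤ (l.flatMap redOf).countP (crosses X) + l.countP (both X) := by
  induction l with
  | nil => simp
  | cons p l ih =>
    rw [List.flatMap_cons, List.countP_append, List.countP_cons, List.length_cons]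
    have h1 : 1 ≤ (redOf p).countP (crosses X) + (if both X p = true then 1 else 0) := by
      simp only [redOf, List.countP_cons, List.countP_nil, crosses, both, h0]
      by_cases a : 2 * p.2 + 2 ∈ X <;> by_cases b : 2 * p.1.1 + 3 ∈ X <;>
        by_cases c : 2 * p.1.2 + 3 ∈ X <;> simp [a, b, c]
    omega

theorem red_eq {X : Finset ℕ} (h0 : 0 ∈ X) (l : List ((ℕ × ℕ) × ℕ))
    (h : ∀ p ∈ l, 2 * p.2 + 2 ∈ X ↔ (2 * p.1.1 + 3 ∈ X ∨ 2 * p.1.2 + 3 ∈ X)) :
    (l.flatMap redOf).countP (crosses X) + l.countP (both X) = l.length := by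
  induction l with
  | nil => simp
  | cons p l ih =>
    have ih' := ih (fun q hq => h q (List.mem_cons_of_mem _ hq))
    have hp := h p (by simp)
    rw [List.flatMap_cons, List.countP_append, List.countP_cons, List.length_cons]
    have h1 : (redOf p).countP (crosses X) + (if both X p = true then 1 else 0) = 1 := by
      simp only [redOf, List.countP_cons, List.countP_nil, crosses, both, h0, hp]
      by_cases b : 2 * p.1.1 + 3 ∈ X <;>
        by_cases c : 2 * p.1.2 + 3 ∈ X <;> simp [b, c]
    omega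

theorem blue_eq {X : Finset ℕ} (h1 : 1 ∉ X) (V : List ℕ) :
    (V.map (fun v => (2 * v + 3, 1))).countP (crosses X) =
      V.countP (fun v => decide (2 * v + 3 ∈ X)) := by
  rw [List.countP_map]
  congr 1
  funext v
  simp [crosses, h1]

theorem countP_both (X : Finset ℕ) (V : List ℕ) (E : List (ℕ × ℕ))
    (hE : ∀ e ∈ E, e.1 ∈ V ∧ e.2 ∈ V) :
    E.zipIdx.countP (both X) = inside E (V.toFinset.filter (fun v => 2 * v + 3 ∈ X)) := by
  unfold inside
  conv_rhs => rw [← List.zipIdx_map_fst 0 E]
  rw [List.countP_map]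
  apply List.countP_congr
  intro p hp
  obtain ⟨e, i⟩ := p
  rw [List.mem_zipIdx_iff_getElem?] at hp
  have := hE e (List.mem_of_getElem? hp)
  simp [both, this.1, this.2]

theorem choose_two (k : ℕ) : k.choose 2 = k * (k - 1) / 2 := Nat.choose_two_right k

theorem card_filter_eq {V : List ℕ} (hV : V.Nodup) (p : ℕ → Prop) [DecidablePred p] :
    (V.toFinset.filter p).card = V.countP (fun v => decide (p v)) := by
  have : V.toFinset.filter p = (V.filter (fun v => decide (p v))).toFinset := by
    ext v; simp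
  rw [this, List.toFinset_card_of_nodup (hV.filter _), List.countP_eq_length_filter]

theorem correct_main {V : List ℕ} {E : List (ℕ × ℕ)} (h : IsGraph V E) {k : ℕ} (hk : 2 ≤ k)
    (hle : k * (k - 1) / 2 ≤ E.length) : HasClique V E k ↔ RBCut (mainInst V E k) := by
  rw [hasClique_iff h hk, choose_two]
  constructor
  · rintro ⟨U, hUV, hcard, hin⟩
    refine ⟨valid_mainInst h k, ?_⟩
    -- the cut
    set X : Finset ℕ := insert 0 (U.image (fun v => 2 * v + 3) ∪
      ((E.zipIdx.filter (fun p => decide (p.1.1 ∈ U) || decide (p.1.2 ∈ U))).map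
        (fun p => 2 * p.2 + 2)).toFinset) with hX
    have h0 : 0 ∈ X := by simp [hX]
    have h1 : 1 ∉ X := by
      simp only [hX, Finset.mem_insert, Finset.mem_union, Finset.mem_image, List.mem_toFinset,
        List.mem_map, not_or, not_exists, not_and]
      exact ⟨by omega, fun v _ => by omega, fun p _ => by omega⟩
    have hv : ∀ v, 2 * v + 3 ∈ X ↔ v ∈ U := by
      intro v
      simp only [hX, Finset.mem_insert, Finset.mem_union, Finset.mem_image, List.mem_toFinset,
        List.mem_map]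
      constructor
      · rintro (h | ⟨w, hw, he⟩ | ⟨p, _, he⟩)
        · omega
        · have : w = v := by omega
          rwa [this] at hw
        · omega
      · intro hv
        exact Or.inr (Or.inl ⟨v, hv, rfl⟩)
    have he : ∀ p ∈ E.zipIdx, 2 * p.2 + 2 ∈ X ↔ (2 * p.1.1 + 3 ∈ X ∨ 2 * p.1.2 + 3 ∈ X) := by
      rintro ⟨e, i⟩ hp
      rw [hv, hv]
      simp only [hX, Finset.mem_insert, Finset.mem_union, Finset.mem_image, List.mem_toFinset,
        List.mem_map, List.mem_filter, Bool.or_eq_true, decide_eq_true_eq]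
      constructor
      · rintro (h | ⟨w, hw, he⟩ | ⟨⟨f, j⟩, ⟨hq, hU⟩, he⟩)
        · omega
        · omega
        · simp only at he hU ⊢
          have : j = i := by omega
          subst this
          rw [List.mem_zipIdx_iff_getElem?] at hp hq
          simp only at hp hq
          rw [hp] at hq
          simp only [Option.some.injEq] at hq
          rw [hq]
          exact hU
      · intro hU
        exact Or.inr (Or.inr ⟨(e, i), ⟨hp, hU⟩, rfl⟩)
    have hfilter : V.toFinset.filter (fun v => 2 * v + 3 ∈ X) = U := by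
      ext v
      simp only [Finset.mem_filter, List.mem_toFinset, hv]
      exact ⟨fun h => h.2, fun h => ⟨hUV v h, h⟩⟩
    refine ⟨X, ?_, h0, h1, ?_, ?_⟩
    · intro x hx
      simp only [hX, Finset.mem_insert, Finset.mem_union, Finset.mem_image, List.mem_toFinset,
        List.mem_map, List.mem_filter] at hx
      simp only [mainInst, List.mem_cons, List.mem_append, List.mem_map]
      rcases hx with rfl | ⟨v, hv, rfl⟩ | ⟨p, ⟨hp, _⟩, rfl⟩
      · exact Or.inl rfl
      · exact Or.inr (Or.inr (Or.inl ⟨v, hUV v hv, rfl⟩))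
      · exact Or.inr (Or.inr (Or.inr ⟨p, hp, rfl⟩))
    · have h2 := red_eq h0 E.zipIdx he
      rw [countP_both X V E (fun e he => ⟨(h.2.1 e he).1, (h.2.1 e he).2.1⟩), hfilter,
        List.length_zipIdx] at h2
      simp only [mainInst]
      omega
    · simp only [mainInst]
      rw [blue_eq h1, ← card_filter_eq h.1, hfilter]
      exact hcard
  · rintro ⟨_, X, _, h0, h1, hr, hb⟩
    simp only [mainInst] at h0 h1 hr hb
    refine ⟨V.toFinset.filter (fun v => 2 * v + 3 ∈ X), ?_, ?_, ?_⟩
    · intro v hv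
      simp only [Finset.mem_filter, List.mem_toFinset] at hv
      exact hv.1
    · rw [card_filter_eq h.1, ← blue_eq h1]
      exact hb
    · have h2 := red_ge h0 E.zipIdx
      rw [countP_both X V E (fun e he => ⟨(h.2.1 e he).1, (h.2.1 e he).2.1⟩),
        List.length_zipIdx] at h2
      omega

theorem not_noInst : ¬ RBCut noInst := by
  rintro ⟨_, X, _, h0, h1, hr, _⟩
  simp [noInst, crosses] at h0 h1 hr
  exact h1 (hr.1 h0)

theorem correct {I : (List ℕ × List (ℕ × ℕ)) × ℕ} (h : IsGraph I.1.1 I.1.2 ∧ 2 ≤ I.2) :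
    CLIQUE I ↔ RBCut (toRB I) := by
  unfold toRB
  split_ifs with hle
  · rw [← correct_main h.1 h.2 hle]
    exact ⟨fun h => h.2, fun h' => ⟨h.1, h'⟩⟩
  · constructor
    · rintro ⟨_, hc⟩
      exfalso
      apply hle
      rw [hasClique_iff h.1 h.2, choose_two] at hc
      obtain ⟨U, _, _, hU⟩ := hc
      exact hU.trans (List.countP_le_length)
    · intro h'
      exact absurd h' not_noInst

/-! ### Polynomial time -/

theorem mk_poly {α : Type} [TEnc α] {v : α → List ℕ} {r b : α → List (ℕ × ℕ)} {s t m n : α → ℕ}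
    (hv : Poly v) (hr : Poly r) (hb : Poly b) (hs : Poly s) (ht : Poly t) (hm : Poly m)
    (hn : Poly n) : Poly (fun a => (⟨v a, r a, b a, s a, t a, m a, n a⟩ : RBInst)) :=
  Poly.pair hv (Poly.pair hr (Poly.pair hb (Poly.pair hs (Poly.pair ht (Poly.pair hm hn)))))

theorem lin_poly {α : Type} [TEnc α] {n : α → ℕ} (hn : Poly n) (c : ℕ) :
    Poly (fun a => 2 * n a + c) :=
  Poly.add (Poly.mul (Poly.const 2) hn) (Poly.const c)

theorem toRB_poly : Poly toRB := by
  have hV : Poly (fun I : (List ℕ × List (ℕ × ℕ)) × ℕ => I.1.1) := Poly.fst (Poly.fst Poly.id)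
  have hE : Poly (fun I : (List ℕ × List (ℕ × ℕ)) × ℕ => I.1.2) := Poly.snd (Poly.fst Poly.id)
  have hk : Poly (fun I : (List ℕ × List (ℕ × ℕ)) × ℕ => I.2) := Poly.snd Poly.id
  have hk2 : Poly (fun I : (List ℕ × List (ℕ × ℕ)) × ℕ => I.2 * (I.2 - 1) / 2) :=
    Poly.div (Poly.mul hk (Poly.sub hk (Poly.const 1))) (Poly.const 2)
  refine Poly.ite (Poly.decide_le hk2 (Poly.length hE)) ?_ (Poly.const noInst)
  refine mk_poly ?_ ?_ ?_ (Poly.const 0) (Poly.const 1)
    (Poly.sub (Poly.length hE) hk2) hk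
  · refine Poly.cons (Poly.const 0) (Poly.cons (Poly.const 1) (Poly.append ?_ ?_))
    · exact Poly.map (F := fun _ (v : ℕ) => 2 * v + 3) hV (lin_poly (Poly.snd Poly.id) 3)
    · exact Poly.map (F := fun _ (p : (ℕ × ℕ) × ℕ) => 2 * p.2 + 2) (Poly.zipIdx hE)
        (lin_poly (Poly.snd (Poly.snd Poly.id)) 2)
  · refine Poly.flatMap (F := fun _ (p : (ℕ × ℕ) × ℕ) => redOf p) (Poly.zipIdx hE) ?_
    have h2 : Poly (fun x : ((List ℕ × List (ℕ × ℕ)) × ℕ) × ((ℕ × ℕ) × ℕ) => 2 * x.2.2 + 2) :=
      lin_poly (Poly.snd (Poly.snd Poly.id)) 2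
    exact Poly.cons (Poly.pair (Poly.const 0) h2) (Poly.cons
      (Poly.pair h2 (lin_poly (Poly.fst (Poly.fst (Poly.snd Poly.id))) 3)) (Poly.cons
      (Poly.pair h2 (lin_poly (Poly.snd (Poly.fst (Poly.snd Poly.id))) 3)) (Poly.const [])))
  · exact Poly.map (F := fun _ (v : ℕ) => ((2 * v + 3, 1) : ℕ × ℕ)) hV
      (Poly.pair (lin_poly (Poly.snd Poly.id) 3) (Poly.const 1))

theorem valid_noInst : noInst.Valid := by
  refine ⟨⟨?_, ?_, ?_⟩, ?_, ?_, ?_⟩ <;> simp [noInst]

theorem hardPr_RBCut : HardPr RBInst.Valid RBCut := by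
  refine hardPr_CLIQUE.trans toRB_poly ?_ (fun I hI => correct hI)
  intro I hI
  unfold toRB
  split_ifs
  · exact valid_mainInst hI.1 _
  · exact valid_noInst

/-- The unweighted red-blue `s`-`t` cut problem in undirected graphs is `NP`-hard. -/
theorem npHard_RBCut : NPHardP RBCut := hardPr_RBCut.toHardI.toNPHardP

end Pool.Agent.NPC.H634R2
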