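import Pool.Agent.NPC.Defs

/-!
# The red-blue cut problem in directed graphs
-/

namespace Pool.Agent.NPC.H634R2

/-- An instance of the red-blue cut problem in digraphs: the list of vertices, the lists of
red and of blue arcs (an arc is the pair of its tail and its head), and the two bounds. -/
structure DirInst where
  verts : List ℕ
  red : List (ℕ × ℕ)
  blue : List (ℕ × ℕ)
  r : ℕ
  b : ℕ

/-- The encoding of instances. -/
instance : TEnc DirInst :=
  ⟨fun I => toT (I.verts, I.red, I.blue, I.r, I.b), fun I J h => by
    have h1 := TEnc.inj h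
    cases I; cases J
    simpa using h1⟩

/-- The data describe a simple digraph, each arc having one colour: vertices and arcs are listed
once, the two ends of an arc are distinct vertices. -/
def DirInst.Valid (I : DirInst) : Prop :=
  I.verts.Nodup ∧ (∀ a ∈ I.red ++ I.blue, a.1 ∈ I.verts ∧ a.2 ∈ I.verts ∧ a.1 ≠ a.2) ∧
    (I.red ++ I.blue).Nodup

/-- The arc `a` leaves `X`. -/
def leaves (X : Finset ℕ) (a : ℕ × ℕ) : Bool := decide (a.1 ∈ X) && !decide (a.2 ∈ X)

/-- The red-blue cut problem in digraphs: is there a nonempty proper subset `X` of the vertex set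
such that at most `r` red arcs and at most `b` blue arcs leave `X`? -/
def DirCut (I : DirInst) : Prop :=
  I.Valid ∧ ∃ X : Finset ℕ, X.Nonempty ∧ (∀ x ∈ X, x ∈ I.verts) ∧ (∃ v ∈ I.verts, v ∉ X) ∧
    I.red.countP (leaves X) ≤ I.r ∧ I.blue.countP (leaves X) ≤ I.b

end Pool.Agent.NPC.H634R2
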