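import Pool.Agent.H634R2.Clique
import Pool.Agent.H634R2.RedBlueDirDefs

/-!
# The red-blue cut problem in directed graphs: hardness
-/

namespace Pool.Agent.NPC.H634R2

/-- An instance without solution. -/
def noDir : DirInst := ⟨[0, 1], [(0, 1), (1, 0)], [], 0, 0⟩

/-- The source clique. -/
def sS (N : ℕ) : List ℕ := (List.range N).map (fun i => 4 * i)
/-- The sink clique. -/
def sT (N : ℕ) : List ℕ := (List.range N).map (fun i => 4 * i + 1)
/-- The other vertices. -/
def sW (V : List ℕ) (E : List (ℕ × ℕ)) : List ℕ :=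
  V.map (fun v => 4 * v + 2) ++ E.zipIdx.map (fun p => 4 * p.2 + 3)

/-- All arcs from `A` to `B`. -/
def allArcs (A B : List ℕ) : List (ℕ × ℕ) :=
  A.flatMap (fun x => (B.filter (fun y => decide (x ≠ y))).map (fun y => (x, y)))

/-- The arcs associated to an edge with its number. -/
def arcsOf (p : (ℕ × ℕ) × ℕ) : List (ℕ × ℕ) :=
  [(0, 4 * p.2 + 3), (4 * p.2 + 3, 4 * p.1.1 + 2), (4 * p.2 + 3, 4 * p.1.2 + 2)]

/-- The main part of the reduction from the clique problem. -/
def mainDir (V : List ℕ) (E : List (ℕ × ℕ)) (k : ℕ) : DirInst where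
  verts := sS (E.length + 2) ++ (sT (E.length + 2) ++ sW V E)
  red := allArcs (sS (E.length + 2) ++ (sT (E.length + 2) ++ sW V E)) (sS (E.length + 2)) ++
    (allArcs (sT (E.length + 2)) (sT (E.length + 2) ++ sW V E) ++ E.zipIdx.flatMap arcsOf)
  blue := V.map (fun v => (4 * v + 2, 1))
  r := E.length - k * (k - 1) / 2
  b := k

/-- The reduction from the clique problem. -/
def toDir (I : (List ℕ × List (ℕ × ℕ)) × ℕ) : DirInst :=
  if I.2 * (I.2 - 1) / 2 ≤ I.1.2.length then mainDir I.1.1 I.1.2 I.2 else noDir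

/-! ### Validity -/

theorem mem_sS {N x : ℕ} : x ∈ sS N ↔ ∃ i < N, 4 * i = x := by simp [sS]
theorem mem_sT {N x : ℕ} : x ∈ sT N ↔ ∃ i < N, 4 * i + 1 = x := by simp [sT]
theorem mem_sW {V : List ℕ} {E : List (ℕ × ℕ)} {x : ℕ} :
    x ∈ sW V E ↔ (∃ v ∈ V, 4 * v + 2 = x) ∨ ∃ p ∈ E.zipIdx, 4 * p.2 + 3 = x := by
  simp only [sW, List.mem_append, List.mem_map]

theorem mem_allArcs {A B : List ℕ} {a : ℕ × ℕ} :
    a ∈ allArcs A B ↔ a.1 ∈ A ∧ a.2 ∈ B ∧ a.1 ≠ a.2 := by
  obtain ⟨x, y⟩ := a
  simp only [allArcs, List.mem_flatMap, List.mem_map, List.mem_filter, decide_eq_true_eq,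
    Prod.mk.injEq]
  constructor
  · rintro ⟨x', hx, y', ⟨hy, hne⟩, rfl, rfl⟩
    exact ⟨hx, hy, hne⟩
  · rintro ⟨hx, hy, hne⟩
    exact ⟨x, hx, y, ⟨hy, hne⟩, rfl, rfl⟩

theorem allArcs_nodup {A B : List ℕ} (hA : A.Nodup) (hB : B.Nodup) : (allArcs A B).Nodup := by
  unfold allArcs
  rw [List.nodup_flatMap]
  constructor
  · intro x _
    exact (hB.filter _).map (fun a b hab => by simpa using hab)
  · refine (List.nodup_iff_pairwise_ne.1 hA).imp ?_
    intro x x' hne a ha hb
    simp only [List.mem_map] at ha hb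
    obtain ⟨y, _, rfl⟩ := ha
    obtain ⟨y', _, h⟩ := hb
    simp only [Prod.mk.injEq] at h
    exact hne h.1.symm

theorem zipIdx_nodup_snd (E : List (ℕ × ℕ)) : (E.zipIdx.map Prod.snd).Nodup := by
  rw [List.zipIdx_map_snd]
  exact List.nodup_range' _

theorem verts_nodup {V : List ℕ} {E : List (ℕ × ℕ)} (h : V.Nodup) (N : ℕ) :
    (sS N ++ (sT N ++ sW V E)).Nodup := by
  rw [List.nodup_append, List.nodup_append]
  unfold sW
  rw [List.nodup_append]
  refine ⟨List.nodup_range.map (fun a b hab => by simpa using hab),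
    ⟨List.nodup_range.map (fun a b hab => by simpa using hab),
      ⟨h.map (fun a b hab => by simpa using hab), ?_, ?_⟩, ?_⟩, ?_⟩
  · have := (zipIdx_nodup_snd E).map (f := fun n => 4 * n + 3) (fun a b hab => by simpa using hab)
    rwa [List.map_map] at this
  · intro a ha b hb
    simp only [List.mem_map] at ha hb
    obtain ⟨v, _, rfl⟩ := ha
    obtain ⟨p, _, rfl⟩ := hb
    omega
  · intro a ha b hb
    rw [mem_sT] at ha
    obtain ⟨i, _, rfl⟩ := ha
    have hb' : b ∈ sW V E := hb
    rw [mem_sW] at hb'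
    rcases hb' with ⟨v, _, rfl⟩ | ⟨p, _, rfl⟩ <;> omega
  · intro a ha b hb
    rw [mem_sS] at ha
    obtain ⟨i, _, rfl⟩ := ha
    rcases List.mem_append.1 hb with hb | hb
    · rw [mem_sT] at hb
      obtain ⟨j, _, rfl⟩ := hb
      omega
    · have hb' : b ∈ sW V E := hb
      rw [mem_sW] at hb'
      rcases hb' with ⟨v, _, rfl⟩ | ⟨p, _, rfl⟩ <;> omega

theorem valid_mainDir {V : List ℕ} {E : List (ℕ × ℕ)} (h : IsGraph V E) (k : ℕ) :
    (mainDir V E k).Valid := by
  have hE : ∀ p ∈ E.zipIdx, p.1 ∈ E := by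
    intro p hp
    obtain ⟨e, i⟩ := p
    rw [List.mem_zipIdx_iff_getElem?] at hp
    exact List.mem_of_getElem? hp
  have hnd := verts_nodup (E := E) h.1 (E.length + 2)
  have hnd2 := (List.nodup_append.1 hnd).2.1
  have hS := (List.nodup_append.1 hnd).1
  have hT := (List.nodup_append.1 hnd2).1
  refine ⟨hnd, ?_, ?_⟩
  · intro a ha
    simp only [mainDir, List.mem_append, mem_allArcs, List.mem_flatMap, List.mem_map] at ha
    simp only [mainDir, List.mem_append]
    rcases ha with (⟨h1, h2, h3⟩ | ⟨h1, h2, h3⟩ | ⟨p, hp, ha⟩) | ⟨v, hv, rfl⟩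
    · exact ⟨h1, Or.inl h2, h3⟩
    · exact ⟨Or.inr (Or.inl h1), Or.inr h2, h3⟩
    · have h1 := h.2.1 p.1 (hE p hp)
      have e1 : 4 * p.2 + 3 ∈ sW V E := mem_sW.2 (Or.inr ⟨p, hp, rfl⟩)
      have e2 : 4 * p.1.1 + 2 ∈ sW V E := mem_sW.2 (Or.inl ⟨_, h1.1, rfl⟩)
      have e3 : 4 * p.1.2 + 2 ∈ sW V E := mem_sW.2 (Or.inl ⟨_, h1.2.1, rfl⟩)
      have e0 : 0 ∈ sS (E.length + 2) := mem_sS.2 ⟨0, by omega, rfl⟩
      simp only [arcsOf, List.mem_cons, List.not_mem_nil, or_false] at ha
      rcases ha with rfl | rfl | rfl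
      · exact ⟨Or.inl e0, Or.inr (Or.inr e1), by simp⟩
      · exact ⟨Or.inr (Or.inr e1), Or.inr (Or.inr e2), by simp only; omega⟩
      · exact ⟨Or.inr (Or.inr e1), Or.inr (Or.inr e3), by simp only; omega⟩
    · exact ⟨Or.inr (Or.inr (mem_sW.2 (Or.inl ⟨v, hv, rfl⟩))),
        Or.inr (Or.inl (mem_sT.2 ⟨0, by omega, rfl⟩)), by simp⟩
  · simp only [mainDir]
    rw [List.nodup_append, List.nodup_append, List.nodup_append]
    refine ⟨⟨allArcs_nodup hnd hS, ⟨allArcs_nodup hT hnd2, ?_, ?_⟩, ?_⟩, ?_, ?_⟩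
    · rw [List.nodup_flatMap]
      constructor
      · intro p hp
        have h1 := h.2.1 p.1 (hE p hp)
        simp only [arcsOf, List.nodup_cons, List.mem_cons,
          List.not_mem_nil, or_false, Prod.mk.injEq, not_or]
        refine ⟨⟨by omega, by omega⟩, by omega, by simp⟩
      · have h2 := zipIdx_nodup_snd E
        rw [List.nodup_iff_pairwise_ne, List.pairwise_map] at h2
        refine h2.imp ?_
        intro p q hpq x hx hy
        simp only [arcsOf, List.mem_cons, List.not_mem_nil, or_false] at hx hy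
        rcases hx with rfl | rfl | rfl <;> rcases hy with hy | hy | hy <;>
          simp only [Prod.mk.injEq] at hy <;> omega
    · intro a ha b hb hab
      subst hab
      rw [mem_allArcs, mem_sT] at ha
      simp only [List.mem_flatMap] at hb
      obtain ⟨p, hp, hb⟩ := hb
      obtain ⟨⟨i, _, h1⟩, _, _⟩ := ha
      simp only [arcsOf, List.mem_cons, List.not_mem_nil, or_false] at hb
      rcases hb with rfl | rfl | rfl <;> simp only at h1 <;> omega
    · intro a ha b hb hab
      subst hab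
      rw [mem_allArcs, mem_sS] at ha
      obtain ⟨_, ⟨i, _, h2⟩, _⟩ := ha
      rcases List.mem_append.1 hb with hb | hb
      · simp only [mem_allArcs, List.mem_append, mem_sT, mem_sW] at hb
        obtain ⟨_, (⟨j, _, h3⟩ | ⟨v, _, h3⟩ | ⟨p, _, h3⟩), _⟩ := hb <;> omega
      · simp only [List.mem_flatMap] at hb
        obtain ⟨p, hp, hb⟩ := hb
        simp only [arcsOf, List.mem_cons, List.not_mem_nil, or_false] at hb
        rcases hb with rfl | rfl | rfl <;> simp only at h2 <;> omega
    · exact h.1.map (fun a b hab => by simpa using hab)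
    · intro a ha b hb hab
      subst hab
      simp only [List.mem_map] at hb
      obtain ⟨v, _, rfl⟩ := hb
      rcases List.mem_append.1 ha with ha | ha
      · rw [mem_allArcs, mem_sS] at ha
        obtain ⟨_, ⟨i, _, h2⟩, _⟩ := ha
        simp only at h2
        omega
      · rcases List.mem_append.1 ha with ha | ha
        · rw [mem_allArcs, mem_sT] at ha
          obtain ⟨⟨i, _, h2⟩, _⟩ := ha
          simp only at h2
          omega
        · simp only [List.mem_flatMap] at ha
          obtain ⟨p, hp, ha⟩ := ha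
          simp only [arcsOf, List.mem_cons, List.not_mem_nil, or_false, Prod.mk.injEq] at ha
          omega

/-! ### Correctness -/

theorem card_le_countP {α : Type} [DecidableEq α] (F : Finset α) (L : List α) (p : α → Bool)
    (h : ∀ a ∈ F, a ∈ L ∧ p a = true) : F.card ≤ L.countP p := by
  rw [List.countP_eq_length_filter]
  refine le_trans (Finset.card_le_card ?_) (List.toFinset_card_le _)
  intro a ha
  rw [List.mem_toFinset, List.mem_filter]
  exact h a ha

theorem arith {N c x : ℕ} (hx : 1 ≤ x) (hx2 : N ≤ x + c) (hc : 1 ≤ c) (hcN : c ≤ N) :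
    N ≤ x * c + 1 := by
  nlinarith

/-- Both ends of the edge are (names of) vertices in `X`. -/
def both4 (X : Finset ℕ) (p : (ℕ × ℕ) × ℕ) : Bool :=
  decide (4 * p.1.1 + 2 ∈ X) && decide (4 * p.1.2 + 2 ∈ X)

theorem arcs_ge {X : Finset ℕ} (h0 : 0 ∈ X) (l : List ((ℕ × ℕ) × ℕ)) :
    l.length ≤ (l.flatMap arcsOf).countP (leaves X) + l.countP (both4 X) := by
  induction l with
  | nil => simp
  | cons p l ih =>
    rw [List.flatMap_cons, List.countP_append, List.countP_cons, List.length_cons]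
    have h1 : 1 ≤ (arcsOf p).countP (leaves X) + (if both4 X p = true then 1 else 0) := by
      simp only [arcsOf, List.countP_cons, List.countP_nil, leaves, both4, h0]
      by_cases a : 4 * p.2 + 3 ∈ X <;> by_cases b : 4 * p.1.1 + 2 ∈ X <;>
        by_cases c : 4 * p.1.2 + 2 ∈ X <;> simp [a, b, c]
    omega

theorem arcs_eq {X : Finset ℕ} (h0 : 0 ∈ X) (l : List ((ℕ × ℕ) × ℕ))
    (h : ∀ p ∈ l, 4 * p.2 + 3 ∈ X ↔ (4 * p.1.1 + 2 ∈ X ∧ 4 * p.1.2 + 2 ∈ X)) :
    (l.flatMap arcsOf).countP (leaves X) + l.countP (both4 X) = l.length := by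
  induction l with
  | nil => simp
  | cons p l ih =>
    have ih' := ih (fun q hq => h q (List.mem_cons_of_mem _ hq))
    have hp := h p (by simp)
    rw [List.flatMap_cons, List.countP_append, List.countP_cons, List.length_cons]
    have h1 : (arcsOf p).countP (leaves X) + (if both4 X p = true then 1 else 0) = 1 := by
      simp only [arcsOf, List.countP_cons, List.countP_nil, leaves, both4, h0, hp]
      by_cases b : 4 * p.1.1 + 2 ∈ X <;>
        by_cases c : 4 * p.1.2 + 2 ∈ X <;> simp [b, c]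
    omega

theorem blueDir_eq {X : Finset ℕ} (h1 : 1 ∉ X) (V : List ℕ) :
    (V.map (fun v => (4 * v + 2, 1))).countP (leaves X) =
      V.countP (fun v => decide (4 * v + 2 ∈ X)) := by
  rw [List.countP_map]
  congr 1
  funext v
  simp [leaves, h1]

theorem countP_both4 (X : Finset ℕ) (V : List ℕ) (E : List (ℕ × ℕ))
    (hE : ∀ e ∈ E, e.1 ∈ V ∧ e.2 ∈ V) :
    E.zipIdx.countP (both4 X) = inside E (V.toFinset.filter (fun v => 4 * v + 2 ∈ X)) := by
  unfold inside
  conv_rhs => rw [← List.zipIdx_map_fst 0 E]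
  rw [List.countP_map]
  apply List.countP_congr
  intro p hp
  obtain ⟨e, i⟩ := p
  rw [List.mem_zipIdx_iff_getElem?] at hp
  have := hE e (List.mem_of_getElem? hp)
  simp [both4, this.1, this.2]

theorem card_filterP {V : List ℕ} (hV : V.Nodup) (p : ℕ → Prop) [DecidablePred p] :
    (V.toFinset.filter p).card = V.countP (fun v => decide (p v)) := by
  have : V.toFinset.filter p = (V.filter (fun v => decide (p v))).toFinset := by
    ext v; simp
  rw [this, List.toFinset_card_of_nodup (hV.filter _), List.countP_eq_length_filter]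

theorem correct_mainDir {V : List ℕ} {E : List (ℕ × ℕ)} (h : IsGraph V E) {k : ℕ} (hk : 2 ≤ k)
    (hle : k * (k - 1) / 2 ≤ E.length) : HasClique V E k ↔ DirCut (mainDir V E k) := by
  rw [hasClique_iff h hk, Nat.choose_two_right]
  have hkpos : 1 ≤ k * (k - 1) / 2 := by
    rw [Nat.le_div_iff_mul_le (by norm_num)]
    have : 1 ≤ k - 1 := by omega
    nlinarith
  constructor
  · rintro ⟨U, hUV, hcard, hin⟩
    refine ⟨valid_mainDir h k, ?_⟩
    -- the cut
    set X : Finset ℕ := (sS (E.length + 2)).toFinset ∪ (U.image (fun v => 4 * v + 2) ∪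
      ((E.zipIdx.filter (fun p => decide (p.1.1 ∈ U) && decide (p.1.2 ∈ U))).map
        (fun p => 4 * p.2 + 3)).toFinset) with hX
    have hmem : ∀ x, x ∈ X ↔ (∃ i < E.length + 2, 4 * i = x) ∨ (∃ v ∈ U, 4 * v + 2 = x) ∨
        ∃ p ∈ E.zipIdx, (p.1.1 ∈ U ∧ p.1.2 ∈ U) ∧ 4 * p.2 + 3 = x := by
      intro x
      simp only [hX, Finset.mem_union, Finset.mem_image, List.mem_toFinset,
        List.mem_map, List.mem_filter, Bool.and_eq_true, decide_eq_true_eq, mem_sS, and_assoc]
    have h0 : 0 ∈ X := (hmem 0).2 (Or.inl ⟨0, by omega, rfl⟩)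
    have h1 : ∀ i, 4 * i + 1 ∉ X := by
      intro i hi
      rw [hmem] at hi
      rcases hi with ⟨j, _, h⟩ | ⟨v, _, h⟩ | ⟨p, _, _, h⟩ <;> omega
    have hv : ∀ v, 4 * v + 2 ∈ X ↔ v ∈ U := by
      intro v
      rw [hmem]
      constructor
      · rintro (⟨i, _, h⟩ | ⟨w, hw, he⟩ | ⟨p, _, _, he⟩)
        · omega
        · have : w = v := by omega
          rwa [this] at hw
        · omega
      · intro hv
        exact Or.inr (Or.inl ⟨v, hv, rfl⟩)
    have he : ∀ p ∈ E.zipIdx, 4 * p.2 + 3 ∈ X ↔ (4 * p.1.1 + 2 ∈ X ∧ 4 * p.1.2 + 2 ∈ X) := by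
      rintro ⟨e, i⟩ hp
      rw [hv, hv, hmem]
      constructor
      · rintro (⟨i, _, h⟩ | ⟨w, hw, he⟩ | ⟨⟨f, j⟩, hq, hU, he⟩)
        · omega
        · omega
        · simp only at he hU ⊢
          have : j = i := by omega
          subst this
          rw [List.mem_zipIdx_iff_getElem?] at hp hq
          simp only at hp hq
          rw [hp] at hq
          simp only [Option.some.injEq] at hq
          rw [hq]
          exact hU
      · intro hU
        exact Or.inr (Or.inr ⟨(e, i), hp, hU, rfl⟩)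
    have hfilter : V.toFinset.filter (fun v => 4 * v + 2 ∈ X) = U := by
      ext v
      simp only [Finset.mem_filter, List.mem_toFinset, hv]
      exact ⟨fun h => h.2, fun h => ⟨hUV v h, h⟩⟩
    refine ⟨X, ⟨0, h0⟩, ?_, ⟨1, ?_, h1 0⟩, ?_, ?_⟩
    · intro x hx
      simp only [mainDir, List.mem_append, mem_sS, mem_sW]
      rcases (hmem x).1 hx with ⟨i, hi, rfl⟩ | ⟨v, hv, rfl⟩ | ⟨p, hp, _, rfl⟩
      · exact Or.inl ⟨i, hi, rfl⟩
      · exact Or.inr (Or.inr (Or.inl ⟨v, hUV v hv, rfl⟩))
      · exact Or.inr (Or.inr (Or.inr ⟨p, hp, rfl⟩))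
    · simp only [mainDir, List.mem_append, mem_sT]
      exact Or.inr (Or.inl ⟨0, by omega, rfl⟩)
    · have h2 := arcs_eq h0 E.zipIdx he
      rw [countP_both4 X V E (fun e he => ⟨(h.2.1 e he).1, (h.2.1 e he).2.1⟩), hfilter,
        List.length_zipIdx] at h2
      simp only [mainDir]
      rw [List.countP_append, List.countP_append]
      have e1 : (allArcs (sS (E.length + 2) ++ (sT (E.length + 2) ++ sW V E))
          (sS (E.length + 2))).countP (leaves X) = 0 := by
        rw [List.countP_eq_zero]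
        intro a ha
        rw [mem_allArcs, mem_sS] at ha
        have : a.2 ∈ X := (hmem _).2 (Or.inl ha.2.1)
        simp [leaves, this]
      have e2 : (allArcs (sT (E.length + 2)) (sT (E.length + 2) ++ sW V E)).countP
          (leaves X) = 0 := by
        rw [List.countP_eq_zero]
        intro a ha
        rw [mem_allArcs, mem_sT] at ha
        obtain ⟨⟨i, _, hi⟩, _⟩ := ha
        have : a.1 ∉ X := by rw [← hi]; exact h1 i
        simp [leaves, this]
      omega
    · simp only [mainDir]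
      rw [blueDir_eq (h1 0), ← card_filterP h.1, hfilter]
      exact hcard
  · rintro ⟨_, X, hXne, hXsub, ⟨w, hw, hwX⟩, hr, hb⟩
    simp only [mainDir] at hXsub hw hr hb
    set N := E.length + 2 with hN
    have hrN : E.length - k * (k - 1) / 2 + 1 < N := by omega
    rw [List.countP_append, List.countP_append] at hr
    have hSnd : (sS N).Nodup := List.nodup_range.map (fun a b hab => by simpa using hab)
    have hTnd : (sT N).Nodup := List.nodup_range.map (fun a b hab => by simpa using hab)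
    have hScard : (sS N).toFinset.card = N := by
      rw [List.toFinset_card_of_nodup hSnd]; simp [sS]
    have hTcard : (sT N).toFinset.card = N := by
      rw [List.toFinset_card_of_nodup hTnd]; simp [sT]
    -- the source clique is inside
    have hS : ∀ x ∈ sS N, x ∈ X := by
      by_contra hcon
      push Not at hcon
      obtain ⟨y, hy, hyX⟩ := hcon
      have hc : 1 ≤ ((sS N).toFinset \ X).card := by
        rw [Nat.succ_le_iff, Finset.card_pos]
        exact ⟨y, by simp [hy, hyX]⟩
      have hx : 1 ≤ X.card := Finset.card_pos.2 hXne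
      have hcN : ((sS N).toFinset \ X).card ≤ N := by
        have := Finset.card_le_card (Finset.sdiff_subset (s := (sS N).toFinset) (t := X))
        omega
      have hx2 : N ≤ X.card + ((sS N).toFinset \ X).card := by
        have := Finset.card_le_card_sdiff_add_card (s := (sS N).toFinset) (t := X)
        omega
      have h3 := arith hx hx2 hc hcN
      have h4 : (X ×ˢ ((sS N).toFinset \ X)).card ≤
          (allArcs (sS N ++ (sT N ++ sW V E)) (sS N)).countP (leaves X) := by
        apply card_le_countP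
        intro a ha
        simp only [Finset.mem_product, Finset.mem_sdiff, List.mem_toFinset] at ha
        rw [mem_allArcs]
        refine ⟨⟨hXsub _ ha.1, ha.2.1, ?_⟩, by simp [leaves, ha.1, ha.2.2]⟩
        intro heq
        rw [heq] at ha
        exact ha.2.2 ha.1
      rw [Finset.card_product] at h4
      omega
    -- the sink clique is outside
    have hT : ∀ x ∈ sT N, x ∉ X := by
      by_contra hcon
      push Not at hcon
      obtain ⟨y, hy, hyX⟩ := hcon
      set Y := (sS N ++ (sT N ++ sW V E)).toFinset \ X with hY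
      have hc : 1 ≤ ((sT N).toFinset ∩ X).card := by
        rw [Nat.succ_le_iff, Finset.card_pos]
        exact ⟨y, by simp [hy, hyX]⟩
      have hx : 1 ≤ Y.card := by
        rw [Nat.succ_le_iff, Finset.card_pos]
        exact ⟨w, by rw [hY, Finset.mem_sdiff, List.mem_toFinset]; exact ⟨hw, hwX⟩⟩
      have hcN : ((sT N).toFinset ∩ X).card ≤ N := by
        have := Finset.card_le_card (Finset.inter_subset_left (s₁ := (sT N).toFinset) (s₂ := X))
        omega
      have hx2 : N ≤ Y.card + ((sT N).toFinset ∩ X).card := by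
        have h5 : (sT N).toFinset \ X ⊆ Y := by
          intro x hx
          simp only [Finset.mem_sdiff, List.mem_toFinset] at hx
          rw [hY, Finset.mem_sdiff, List.mem_toFinset]
          exact ⟨List.mem_append_right _ (List.mem_append_left _ hx.1), hx.2⟩
        have h6 := Finset.card_le_card h5
        have h7 := Finset.card_sdiff_add_card_inter (sT N).toFinset X
        omega
      have h3 := arith hx hx2 hc hcN
      have h4 : (((sT N).toFinset ∩ X) ×ˢ Y).card ≤
          (allArcs (sS N ++ (sT N ++ sW V E)) (sS N) ++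
            allArcs (sT N) (sT N ++ sW V E)).countP (leaves X) := by
        apply card_le_countP
        intro a ha
        simp only [Finset.mem_product, Finset.mem_inter, List.mem_toFinset, hY,
          Finset.mem_sdiff] at ha
        have hne : a.1 ≠ a.2 := by
          intro heq
          rw [← heq] at ha
          exact ha.2.2 ha.1.2
        refine ⟨?_, by simp [leaves, ha.1.2, ha.2.2]⟩
        rw [List.mem_append, mem_allArcs, mem_allArcs]
        rcases List.mem_append.1 ha.2.1 with h8 | h8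
        · left
          exact ⟨List.mem_append_right _ (List.mem_append_left _ ha.1.1), h8, hne⟩
        · right
          exact ⟨ha.1.1, h8, hne⟩
      rw [Finset.card_product, List.countP_append] at h4
      have h5 : Y.card * ((sT N).toFinset ∩ X).card = ((sT N).toFinset ∩ X).card * Y.card :=
        Nat.mul_comm _ _
      omega
    have h0 : 0 ∈ X := hS 0 (mem_sS.2 ⟨0, by omega, rfl⟩)
    have h1 : 1 ∉ X := hT 1 (mem_sT.2 ⟨0, by omega, rfl⟩)
    refine ⟨V.toFinset.filter (fun v => 4 * v + 2 ∈ X), ?_, ?_, ?_⟩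
    · intro v hv
      simp only [Finset.mem_filter, List.mem_toFinset] at hv
      exact hv.1
    · rw [card_filterP h.1, ← blueDir_eq h1]
      exact hb
    · have h2 := arcs_ge h0 E.zipIdx
      rw [countP_both4 X V E (fun e he => ⟨(h.2.1 e he).1, (h.2.1 e he).2.1⟩),
        List.length_zipIdx] at h2
      omega

theorem not_noDir : ¬ DirCut noDir := by
  rintro ⟨_, X, hne, hsub, hw, hr, _⟩
  simp only [noDir, leaves, List.countP_cons, List.countP_nil] at hsub hw hr
  by_cases a : 0 ∈ X <;> by_cases b : 1 ∈ X <;> simp [a, b] at hr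
  · obtain ⟨v, hv, hvX⟩ := hw
    simp only [List.mem_cons, List.not_mem_nil, or_false] at hv
    rcases hv with rfl | rfl
    · exact hvX a
    · exact hvX b
  · obtain ⟨v, hv⟩ := hne
    have := hsub v hv
    simp only [List.mem_cons, List.not_mem_nil, or_false] at this
    rcases this with rfl | rfl
    · exact a hv
    · exact b hv

theorem valid_noDir : noDir.Valid := by
  refine ⟨?_, ?_, ?_⟩ <;> simp [noDir]

theorem correctDir {I : (List ℕ × List (ℕ × ℕ)) × ℕ} (h : IsGraph I.1.1 I.1.2 ∧ 2 ≤ I.2) :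
    CLIQUE I ↔ DirCut (toDir I) := by
  unfold toDir
  split_ifs with hle
  · rw [← correct_mainDir h.1 h.2 hle]
    exact ⟨fun h => h.2, fun h' => ⟨h.1, h'⟩⟩
  · constructor
    · rintro ⟨_, hc⟩
      exfalso
      apply hle
      rw [hasClique_iff h.1 h.2, Nat.choose_two_right] at hc
      obtain ⟨U, _, _, hU⟩ := hc
      exact hU.trans (List.countP_le_length)
    · intro h'
      exact absurd h' not_noDir

/-! ### Polynomial time -/

theorem mkDir_poly {α : Type} [TEnc α] {v : α → List ℕ} {r b : α → List (ℕ × ℕ)} {m n : α → ℕ}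
    (hv : Poly v) (hr : Poly r) (hb : Poly b) (hm : Poly m)
    (hn : Poly n) : Poly (fun a => (⟨v a, r a, b a, m a, n a⟩ : DirInst)) :=
  Poly.pair hv (Poly.pair hr (Poly.pair hb (Poly.pair hm hn)))

theorem lin4_poly {α : Type} [TEnc α] {n : α → ℕ} (hn : Poly n) (c : ℕ) :
    Poly (fun a => 4 * n a + c) :=
  Poly.add (Poly.mul (Poly.const 4) hn) (Poly.const c)

theorem allArcs_poly {α : Type} [TEnc α] {A B : α → List ℕ} (hA : Poly A) (hB : Poly B) :
    Poly (fun a => allArcs (A a) (B a)) := by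
  refine Poly.flatMap (F := fun (a : α) (x : ℕ) =>
    ((B a).filter (fun y => decide (x ≠ y))).map (fun y => (x, y))) hA ?_
  refine Poly.map (F := fun (p : α × ℕ) (y : ℕ) => (p.2, y)) ?_
    (Poly.pair (Poly.snd (Poly.fst Poly.id)) (Poly.snd Poly.id))
  exact Poly.filter (p := fun (p : α × ℕ) (y : ℕ) => decide (p.2 ≠ y)) (hB.comp (Poly.fst Poly.id))
    (Poly.decide_not (Poly.decide_eq (Poly.snd (Poly.fst Poly.id)) (Poly.snd Poly.id)))

theorem toDir_poly : Poly toDir := by
  have hV : Poly (fun I : (List ℕ × List (ℕ × ℕ)) × ℕ => I.1.1) := Poly.fst (Poly.fst Poly.id)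
  have hE : Poly (fun I : (List ℕ × List (ℕ × ℕ)) × ℕ => I.1.2) := Poly.snd (Poly.fst Poly.id)
  have hk : Poly (fun I : (List ℕ × List (ℕ × ℕ)) × ℕ => I.2) := Poly.snd Poly.id
  have hk2 : Poly (fun I : (List ℕ × List (ℕ × ℕ)) × ℕ => I.2 * (I.2 - 1) / 2) :=
    Poly.div (Poly.mul hk (Poly.sub hk (Poly.const 1))) (Poly.const 2)
  have hR : Poly (fun I : (List ℕ × List (ℕ × ℕ)) × ℕ => List.range (I.1.2.length + 2)) :=
    (Poly.range_length (Poly.cons (Poly.const ((0, 0) : ℕ × ℕ))
      (Poly.cons (Poly.const ((0, 0) : ℕ × ℕ)) hE))).congr fun I => by simp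
  have hS : Poly (fun I : (List ℕ × List (ℕ × ℕ)) × ℕ => sS (I.1.2.length + 2)) :=
    (Poly.map (F := fun _ (i : ℕ) => 4 * i + 0) hR (lin4_poly (Poly.snd Poly.id) 0)).congr
      fun I => by simp [sS]
  have hT : Poly (fun I : (List ℕ × List (ℕ × ℕ)) × ℕ => sT (I.1.2.length + 2)) :=
    Poly.map (F := fun _ (i : ℕ) => 4 * i + 1) hR (lin4_poly (Poly.snd Poly.id) 1)
  have hW : Poly (fun I : (List ℕ × List (ℕ × ℕ)) × ℕ => sW I.1.1 I.1.2) :=
    Poly.append (Poly.map (F := fun _ (v : ℕ) => 4 * v + 2) hV (lin4_poly (Poly.snd Poly.id) 2))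
      (Poly.map (F := fun _ (p : (ℕ × ℕ) × ℕ) => 4 * p.2 + 3) (Poly.zipIdx hE)
        (lin4_poly (Poly.snd (Poly.snd Poly.id)) 3))
  refine Poly.ite (Poly.decide_le hk2 (Poly.length hE)) ?_ (Poly.const noDir)
  refine mkDir_poly (Poly.append hS (Poly.append hT hW)) (Poly.append
    (allArcs_poly (Poly.append hS (Poly.append hT hW)) hS)
    (Poly.append (allArcs_poly hT (Poly.append hT hW)) ?_)) ?_
    (Poly.sub (Poly.length hE) hk2) hk
  · refine Poly.flatMap (F := fun _ (p : (ℕ × ℕ) × ℕ) => arcsOf p) (Poly.zipIdx hE) ?_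
    have h2 : Poly (fun x : ((List ℕ × List (ℕ × ℕ)) × ℕ) × ((ℕ × ℕ) × ℕ) => 4 * x.2.2 + 3) :=
      lin4_poly (Poly.snd (Poly.snd Poly.id)) 3
    exact Poly.cons (Poly.pair (Poly.const 0) h2) (Poly.cons
      (Poly.pair h2 (lin4_poly (Poly.fst (Poly.fst (Poly.snd Poly.id))) 2)) (Poly.cons
      (Poly.pair h2 (lin4_poly (Poly.snd (Poly.fst (Poly.snd Poly.id))) 2)) (Poly.const [])))
  · exact Poly.map (F := fun _ (v : ℕ) => ((4 * v + 2, 1) : ℕ × ℕ)) hV
      (Poly.pair (lin4_poly (Poly.snd Poly.id) 2) (Poly.const 1))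

theorem hardPr_DirCut : HardPr DirInst.Valid DirCut := by
  refine hardPr_CLIQUE.trans toDir_poly ?_ (fun I hI => correctDir hI)
  intro I hI
  unfold toDir
  split_ifs
  · exact valid_mainDir hI.1 _
  · exact valid_noDir

/-- The red-blue cut problem in digraphs is `NP`-hard. -/
theorem npHard_DirCut : NPHardP DirCut := hardPr_DirCut.toHardI.toNPHardP

end Pool.Agent.NPC.H634R2
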